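import Pool.Agent.P.MP_2b866c_nt.Poly.Sparse
import Pool.Agent.P.MP_2b866c_nt.Block

/-!
The estimate at one dyadic scale, with free parameters.
-/

set_option autoImplicit false

open Finset

namespace Pool.Agent.P.MP_2b866c_nt.Poly

lemma exists_last (P : ℕ → Prop) (L : ℕ) :
    ∃ j ≤ L, (∀ i, j < i → i ≤ L → ¬ P i) ∧ (j = 0 ∨ P j) := by
  induction L with
  | zero => exact ⟨0, le_rfl, fun i h1 h2 => by omega, Or.inl rfl⟩
  | succ L ih =>
    by_cases h : P (L + 1)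
    · exact ⟨L + 1, le_rfl, fun i h1 h2 => by omega, Or.inr h⟩
    · obtain ⟨j, h1, h2, h3⟩ := ih
      refine ⟨j, by omega, fun i i1 i2 => ?_, h3⟩
      rcases Nat.lt_or_ge L i with h4 | h4
      · obtain rfl : i = L + 1 := by omega
        exact h
      · exact h2 i i1 h4

lemma log_le_of_lt {n j : ℕ} (h0 : 1 ≤ n) (h : n < 2 ^ (j + 1)) :
    Real.log n ≤ (j + 1) * Real.log 2 := by
  have : Real.log n ≤ Real.log (2 ^ (j + 1)) :=
    Real.log_le_log (by exact_mod_cast h0) (by exact_mod_cast h.le)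
  rw [Real.log_pow] at this
  push_cast at this; exact this

lemma le_log_of_le {n j : ℕ} (h : 2 ^ j ≤ n) : j * Real.log 2 ≤ Real.log n := by
  rw [← Real.log_pow]
  exact Real.log_le_log (by positivity) (by exact_mod_cast h)

lemma main_est {L j N : ℕ} (hN : Reach N) (h1 : 2 ^ L ≤ N) (h2 : N < 2 ^ (L + 1)) (hj : j ≤ L)
    (hg : Good L j N) {D : ℝ} (hD : |2 * (kk j N : ℝ) - tau j N| ≤ D) :
    |(kk j N : ℝ) - Real.log N / Real.log (4 / 3)| ≤ 4 * (j + 3 + D) := by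
  have a1 := lg_nonneg (tau j N) hN.pos
  have a2 := (good_lg hN h1 h2 hj hg).trans (w_le j)
  have a3 := log_le_of_lt (hN.pt j).pos (pt_lt hN j)
  have a4 := Real.log_natCast_nonneg (pt j N)
  have l1 := Real.log_two_gt_d9
  have l2 := Real.log_two_lt_d9
  have l3 := lam_ge
  have hj0 : (0 : ℝ) ≤ j := Nat.cast_nonneg _
  have hD0 : 0 ≤ D := (abs_nonneg _).trans hD
  unfold lg at a1 a2
  rw [log_three_eq] at a1 a2
  unfold pt at a3 a4
  unfold kk at hD ⊢
  set b := Real.log (4 / 3)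
  set k : ℝ := ((J (tau j N) N : ℕ) : ℝ)
  have hb : 0 < b := by linarith
  obtain ⟨d1, d2⟩ := abs_le.1 hD
  have e1 : (2 * k - tau j N) * Real.log 2 ≤ D := by nlinarith
  have e2 : -D ≤ (2 * k - tau j N) * Real.log 2 := by nlinarith
  have e3 : ((j : ℝ) + 1) * Real.log 2 ≤ j + 1 := by nlinarith
  have e4 : |k * b - Real.log N| ≤ j + 3 + D := by
    rw [abs_le]; constructor <;> linarith
  rw [show k - Real.log N / b = (k * b - Real.log N) / b by field_simp, abs_div, abs_of_pos hb,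
    div_le_iff₀ hb]
  nlinarith

/-- All first passage points at the scales in `[js, L]` are balanced. -/
def Bal (κ : ℝ) (js L N : ℕ) : Prop := ∀ i, js ≤ i → i ≤ L → pt i N ∉ F κ i

/-- The width of the window for the number of odd steps. -/
noncomputable def om (κ : ℝ) (js L : ℕ) : ℝ := 4 * (js + 3 + 30 * (κ * √L)) + js ^ 2

section
variable {κ : ℝ} {js L : ℕ} (hκ : 0 ≤ κ) (hjs : 30 ≤ js) (hκj : 10000 * κ ^ 2 ≤ js) (hL : js ≤ L)
include hκ

lemma om_nonneg : 0 ≤ om κ js L := by unfold om; positivity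

include hjs hκj

lemma notE {i n : ℕ} (hi : js ≤ i) (h : n ∉ F κ i) : n ∉ E i :=
  notMem_E_of_bal hκ (by omega) (hκj.trans (by exact_mod_cast hi)) h

include hL

lemma window {j N : ℕ} (hN : Reach N) (h1 : 2 ^ L ≤ N) (h2 : N < 2 ^ (L + 1))
    (hb : Bal κ js L N) (hj : j ≤ js) (hg : Good L j N) :
    |(kk j N : ℝ) - Real.log N / Real.log (4 / 3)| ≤ om κ js L := by
  have a1 := main_est hN h1 h2 hL (hg.mono hj) (dev_total hκ hjs hκj L N hN h1 h2 hL hb)
  have a2 : kk j (pt js N) ≤ js ^ 2 := (kk_le _ _).trans (good_tau (hN.pt _)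
    (le_pt ((Nat.pow_le_pow_right (by norm_num) hL).trans h1)) (pt_lt hN _) hj (hg.pt hN hL))
  have a3 : (kk j (pt js N) : ℝ) ≤ js ^ 2 := by exact_mod_cast a2
  have a4 : (0 : ℝ) ≤ kk j (pt js N) := Nat.cast_nonneg _
  rw [kk_add hN hj, om]
  push_cast
  rw [abs_le] at a1 ⊢
  constructor <;> linarith [a1.1, a1.2]

lemma window' {j N : ℕ} (hN : Reach N) (h1 : 2 ^ L ≤ N) (h2 : N < 2 ^ (L + 1))
    (hb : Bal κ js L N) (hjL : j ≤ L) (hE : j = 0 ∨ pt j N ∈ E j) (hg : Good L j N) :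
    |(kk j N : ℝ) - Real.log N / Real.log (4 / 3)| ≤ om κ js L := by
  refine window hκ hjs hκj hL hN h1 h2 hb (not_lt.1 fun hc => ?_) hg
  rcases hE with h | h
  · omega
  · exact notE hκ hjs hκj hc.le (hb j hc.le hjL) h

open Classical in
lemma pointwise {N : ℕ} (hN : Reach N) (h1 : 2 ^ L ≤ N) (h2 : N < 2 ^ (L + 1))
    {g : ℕ → ℝ} (hg : ∀ n, 0 ≤ g n) {a : ℝ} (ha : 0 ≤ a)
    (ht : ∀ j, 1 ≤ j → Good L j N → pt j N ∈ E j → (kk 0 (pt j N) : ℝ) ≤ g (pt j N) + a) :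
    |(kk 0 N : ℝ) - Real.log N / Real.log (4 / 3)| ≤ om κ js L + a +
      (if Bal κ js L N then 0 else (L : ℝ) ^ 2 + 4 * (L + 1)) +
      ∑ j ∈ range (L + 1), if Good L j N ∧ pt j N ∈ E j then g (pt j N) else 0 := by
  obtain ⟨j, j1, j2, j3⟩ := exists_last (fun i => pt i N ∈ E i) L
  have hG : Good L j N := j2
  have s0 : ∀ i ∈ range (L + 1),
      0 ≤ if Good L i N ∧ pt i N ∈ E i then g (pt i N) else 0 := fun i _ => by
    split_ifs
    · exact hg _
    · exact le_rfl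
  have a1 : (kk 0 (pt j N) : ℝ) ≤ a +
      ∑ j ∈ range (L + 1), if Good L j N ∧ pt j N ∈ E j then g (pt j N) else 0 := by
    rcases Nat.eq_zero_or_pos j with rfl | hj
    · rw [kk, tau_zero (pt_lt hN 0)]
      have := sum_nonneg s0
      simp only [J, bits, ones_nil, Nat.cast_zero]
      linarith
    · have hE := j3.resolve_left hj.ne'
      have := single_le_sum s0 (mem_range.2 (Nat.lt_succ_of_le j1))
      simp only [hG, hE, and_self, if_true] at this
      linarith [ht j hj hG hE]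
  have a2 : |(kk j N : ℝ) - Real.log N / Real.log (4 / 3)| ≤ om κ js L +
      (if Bal κ js L N then 0 else (L : ℝ) ^ 2 + 4 * (L + 1)) := by
    split_ifs with hb
    · rw [add_zero]; exact window' hκ hjs hκj hL hN h1 h2 hb j1 j3 hG
    · have b1 : (kk j N : ℝ) ≤ L ^ 2 := by
        exact_mod_cast (kk_le _ _).trans (good_tau hN h1 h2 j1 hG)
      have b2 := log_le_of_lt hN.pos h2
      have l2 := Real.log_two_lt_d9
      have l3 := lam_ge
      have hL0 : (0 : ℝ) ≤ L := Nat.cast_nonneg _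
      have b3 : Real.log N / Real.log (4 / 3) ≤ 4 * (L + 1) := by
        rw [div_le_iff₀ (by linarith)]; nlinarith
      have b4 : 0 ≤ Real.log N / Real.log (4 / 3) :=
        div_nonneg (Real.log_natCast_nonneg N) (by linarith)
      have b5 := om_nonneg (js := js) (L := L) hκ
      have b6 : (0 : ℝ) ≤ kk j N := Nat.cast_nonneg _
      rw [abs_le]; constructor <;> nlinarith
  have a3 : (0 : ℝ) ≤ kk 0 (pt j N) := Nat.cast_nonneg _
  rw [kk_add hN (Nat.zero_le j)]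
  push_cast
  rw [abs_le] at a2 ⊢
  constructor <;> linarith [a2.1, a2.2]

omit hκ hjs hκj hL in
lemma crude_sum {j : ℕ} (hj : j ≤ L) (A B : Finset ℕ) {φ : ℕ → ℝ} (hφ : ∀ n, 0 ≤ φ n)
    (hA : ∀ N ∈ A, Reach N ∧ 2 ^ L ≤ N ∧ N < 2 ^ (L + 1) ∧ Good L j N ∧ pt j N ∈ B) :
    ∑ N ∈ A, φ (pt j N) ≤ (L ^ 2 + 1) * (68 * (j + 2) * 2 ^ L / 2 ^ j) * ∑ n ∈ B, φ n := by
  have := sum_fiber hj A (range (L ^ 2 + 1)) B hφ fun N hN => by
    obtain ⟨a1, a2, a3, a4, a5⟩ := hA N hN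
    exact ⟨a1, a2, a3, a4, a5, mem_range.2
      (Nat.lt_succ_of_le ((kk_le _ _).trans (good_tau a1 a2 a3 hj a4)))⟩
  rw [card_range] at this
  push_cast at this
  exact this

omit hL in
lemma card_unbal (A : Finset ℕ)
    (hA : ∀ N ∈ A, Reach N ∧ 2 ^ L ≤ N ∧ N < 2 ^ (L + 1) ∧ ¬ Bal κ js L N) :
    (A.card : ℝ) ≤ 2 ^ L * (136 * (L + 2) ^ 5 * Real.exp (-(κ ^ 2 / 2))) := by
  classical
  have hsub : A ⊆ (Icc js L).biUnion fun i => A.filter fun N => Good L i N ∧ pt i N ∈ F κ i := by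
    intro N hN
    obtain ⟨j, j1, j2, j3⟩ := exists_last (fun i => js ≤ i ∧ pt i N ∈ F κ i) L
    have hb := (hA N hN).2.2.2
    simp only [Bal, not_forall, not_not] at hb
    obtain ⟨i, i1, i2, i3⟩ := hb
    have hij : i ≤ j := not_lt.1 fun hc => j2 i hc i2 ⟨i1, i3⟩
    have hP := j3.resolve_left (by omega)
    refine mem_biUnion.2 ⟨j, mem_Icc.2 ⟨hP.1, j1⟩, mem_filter.2 ⟨hN, fun l l1 l2 => ?_, hP.2⟩⟩
    exact notE hκ hjs hκj (by omega) fun hc => j2 l l1 l2 ⟨by omega, hc⟩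
  have h1 : (A.card : ℝ) ≤ ∑ i ∈ Icc js L,
      ((A.filter fun N => Good L i N ∧ pt i N ∈ F κ i).card : ℝ) := by
    exact_mod_cast (card_le_card hsub).trans card_biUnion_le
  have hL0 : (0 : ℝ) ≤ L := Nat.cast_nonneg _
  refine h1.trans ((sum_le_card_nsmul _ _
    (2 ^ L * (136 * (L + 2) ^ 4 * Real.exp (-(κ ^ 2 / 2)))) fun i hi => ?_).trans ?_)
  · obtain ⟨i1, i2⟩ := mem_Icc.1 hi
    have a1 := crude_sum i2 (A.filter fun N => Good L i N ∧ pt i N ∈ F κ i) (F κ i)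
      (φ := fun _ => 1) (fun _ => zero_le_one) fun N hN => by
        obtain ⟨b1, b2⟩ := mem_filter.1 hN
        obtain ⟨c1, c2, c3, _⟩ := hA N b1
        exact ⟨c1, c2, c3, b2⟩
    simp only [sum_const, nsmul_eq_mul, mul_one] at a1
    have a2 := card_F hκ (show 1 ≤ i by omega)
    have hi' : (i : ℝ) ≤ L := by exact_mod_cast i2
    have hi0 : (0 : ℝ) ≤ i := Nat.cast_nonneg _
    calc _ ≤ _ := a1
      _ ≤ (L + 2) ^ 2 * (68 * (L + 2) * 2 ^ L / 2 ^ i) *
          ((L + 2) * (2 ^ i * (2 * Real.exp (-(κ ^ 2 / 2))))) := by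
        gcongr
        · nlinarith
        · exact a2.trans (by gcongr; norm_num)
      _ = _ := by field_simp; ring
  · rw [Nat.card_Icc, nsmul_eq_mul]
    have : ((L + 1 - js : ℕ) : ℝ) ≤ L + 2 := by exact_mod_cast (by omega : L + 1 - js ≤ L + 2)
    calc _ ≤ (L + 2) * (2 ^ L * (136 * (L + 2) ^ 4 * Real.exp (-(κ ^ 2 / 2)))) := by gcongr
      _ = _ := by ring

lemma fine_sum {j : ℕ} (hj : j ≤ L) (A : Finset ℕ) {φ : ℕ → ℝ} (hφ : ∀ n, 0 ≤ φ n)
    (hA : ∀ N ∈ A, Reach N ∧ 2 ^ L ≤ N ∧ N < 2 ^ (L + 1) ∧ Good L j N ∧ pt j N ∈ E j ∧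
      Bal κ js L N) :
    ∑ N ∈ A, φ (pt j N)
      ≤ (2 * om κ js L + 9) * (68 * (j + 2) * 2 ^ L / 2 ^ j) * ∑ n ∈ E j, φ n := by
  classical
  set c : ℝ := L * Real.log 2 / Real.log (4 / 3) with hc
  have h0 := om_nonneg (js := js) (L := L) hκ
  have a1 := sum_fiber hj A ((range (L ^ 2 + 1)).filter fun k => |(k : ℝ) - c| ≤ om κ js L + 4)
    (E j) hφ fun N hN => by
      obtain ⟨a1, a2, a3, a4, a5, a6⟩ := hA N hN
      refine ⟨a1, a2, a3, a4, a5, mem_filter.2 ⟨mem_range.2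
        (Nat.lt_succ_of_le ((kk_le _ _).trans (good_tau a1 a2 a3 hj a4))), ?_⟩⟩
      have b1 := window' hκ hjs hκj hL a1 a2 a3 a6 hj (Or.inr a5) a4
      have b2 := log_le_of_lt a1.pos a3
      have b3 := le_log_of_le a2
      have l2 := Real.log_two_lt_d9
      have l3 := lam_ge
      have hb : 0 < Real.log (4 / 3) := by linarith
      have b4 : c ≤ Real.log N / Real.log (4 / 3) := by rw [hc]; gcongr
      have b5 : Real.log N / Real.log (4 / 3) ≤ c + 4 := by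
        rw [hc, div_add' _ _ _ hb.ne']; gcongr; linarith
      rw [abs_le] at b1 ⊢
      constructor <;> linarith [b1.1, b1.2]
  refine a1.trans ?_
  have a2 := sum_nonneg fun n (_ : n ∈ E j) => hφ n
  gcongr
  refine (card_le_of_interval _ (a := c - (om κ js L + 4)) (l := 2 * (om κ js L + 4))
    (by positivity) fun k hk => ?_).trans (by linarith)
  have := abs_le.1 (mem_filter.1 hk).2
  constructor <;> linarith [this.1, this.2]

/-- The estimate at scale `L`. -/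
lemma core_abs {w a : ℕ → ℝ} {W W' G u : ℝ} {j₁ : ℕ} (hw0 : ∀ j, 0 ≤ w j) (hw1 : ∀ j, w j ≤ 1)
    (hW : ∑ j ∈ range (L + 1), (j + 2) * w j ≤ W)
    (hW' : (L ^ 2 + 1) * ∑ j ∈ (range (L + 1)).filter (fun j => ¬ j < j₁), (j + 2) * w j ≤ W')
    (hG : 0 ≤ G) (ha : ∀ N, 0 ≤ a N) (hu : 136 * (L + 2) ^ 5 * Real.exp (-(κ ^ 2 / 2)) ≤ u)
    {g : ℕ → ℝ} (hg : ∀ n, 0 ≤ g n) (hgE : ∀ j, ∑ n ∈ E j, g n ≤ G * (2 ^ j * w j))
    (A : Finset ℕ) (hA : ∀ N ∈ A, Reach N ∧ 2 ^ L ≤ N ∧ N < 2 ^ (L + 1) ∧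
      ∀ j, 1 ≤ j → Good L j N → pt j N ∈ E j → (kk 0 (pt j N) : ℝ) ≤ g (pt j N) + a N) :
    ∑ N ∈ A, |(kk 0 N : ℝ) - Real.log N / Real.log (4 / 3)| ≤ ∑ N ∈ A, a N + 2 ^ L * (om κ js L +
      u * (L ^ 2 + 4 * (L + 1)) +
      G * (68 * W * (2 * om κ js L + 9) + 68 * W' + u * 2 ^ j₁)) := by
  classical
  have h0 := om_nonneg (js := js) (L := L) hκ
  have hu0 : 0 ≤ u := le_trans (by positivity) hu
  have hU : ∀ B ⊆ A, (∀ N ∈ B, ¬ Bal κ js L N) → (B.card : ℝ) ≤ 2 ^ L * u := by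
    intro B hB hb
    refine (card_unbal hκ hjs hκj B fun N hN => ?_).trans (by gcongr)
    obtain ⟨a1, a2, a3, _⟩ := hA N (hB hN)
    exact ⟨a1, a2, a3, hb N hN⟩
  have hcard : (A.card : ℝ) ≤ 2 ^ L := by
    have : A ⊆ Ico (2 ^ L) (2 ^ (L + 1)) := fun N hN =>
      mem_Ico.2 ⟨(hA N hN).2.1, (hA N hN).2.2.1⟩
    have h := card_le_card this
    rw [Nat.card_Ico, show 2 ^ (L + 1) - 2 ^ L = 2 ^ L by rw [pow_succ]; omega] at h
    exact_mod_cast h
  refine (sum_le_sum fun N hN => pointwise hκ hjs hκj hL (hA N hN).1 (hA N hN).2.1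
    (hA N hN).2.2.1 hg (ha N) (hA N hN).2.2.2).trans ?_
  rw [sum_add_distrib, sum_add_distrib, sum_add_distrib, sum_const, nsmul_eq_mul, sum_comm]
  have s1 : ∑ N ∈ A, (if Bal κ js L N then 0 else (L : ℝ) ^ 2 + 4 * (L + 1))
      ≤ 2 ^ L * u * (L ^ 2 + 4 * (L + 1)) := by
    rw [sum_ite, sum_const_zero, zero_add, sum_const, nsmul_eq_mul]
    gcongr
    exact hU _ (filter_subset _ _) fun N hN => (mem_filter.1 hN).2
  have base : ∀ j : ℕ, (68 * (j + 2) * 2 ^ L / 2 ^ j) * ∑ n ∈ E j, g n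
      ≤ 68 * 2 ^ L * G * ((j + 2) * w j) := by
    intro j
    calc _ ≤ (68 * (j + 2) * 2 ^ L / 2 ^ j) * (G * (2 ^ j * w j)) := by
          gcongr; exact hgE j
      _ = _ := by field_simp
  have s2 : ∀ j ∈ range (L + 1),
      ∑ N ∈ A, (if Good L j N ∧ pt j N ∈ E j then g (pt j N) else 0)
      ≤ 68 * 2 ^ L * G * (2 * om κ js L + 9) * ((j + 2) * w j) +
        if j < j₁ then 2 ^ L * u * G * 2 ^ j
        else 68 * 2 ^ L * G * (L ^ 2 + 1) * ((j + 2) * w j) := by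
    intro j hj
    have hjL : j ≤ L := Nat.lt_succ_iff.1 (mem_range.1 hj)
    have p0 := hw0 j
    rw [← sum_filter]
    split_ifs with h
    · rw [← sum_filter_add_sum_filter_not _ (Bal κ js L)]
      refine add_le_add ((fine_sum hκ hjs hκj hL hjL _ hg fun N hN => ?_).trans ?_) ?_
      · obtain ⟨b1, b2⟩ := mem_filter.1 hN
        obtain ⟨b3, b4, b5⟩ := mem_filter.1 b1
        obtain ⟨a1, a2, a3, _⟩ := hA N b3
        exact ⟨a1, a2, a3, b4, b5, b2⟩
      · rw [mul_assoc]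
        exact (mul_le_mul_of_nonneg_left (base j) (by positivity)).trans (le_of_eq (by ring))
      · refine (sum_le_card_nsmul _ _ (G * 2 ^ j) fun N hN => ?_).trans ?_
        · have b1 := (mem_filter.1 (mem_filter.1 hN).1).2.2
          refine (single_le_sum (fun n _ => hg n) b1).trans ((hgE j).trans ?_)
          gcongr
          exact mul_le_of_le_one_right (by positivity) (hw1 j)
        · rw [nsmul_eq_mul, mul_assoc _ G]
          gcongr
          exact hU _ ((filter_subset _ _).trans (filter_subset _ _))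
            fun N hN => (mem_filter.1 hN).2
    · refine le_add_of_nonneg_of_le (by positivity)
        ((crude_sum hjL _ (E j) hg fun N hN => ?_).trans ?_)
      · obtain ⟨b3, b4, b5⟩ := mem_filter.1 hN
        obtain ⟨a1, a2, a3, _⟩ := hA N b3
        exact ⟨a1, a2, a3, b4, b5⟩
      · rw [mul_assoc]
        exact (mul_le_mul_of_nonneg_left (base j) (by positivity)).trans (le_of_eq (by ring))
  have s3 := sum_le_sum s2
  rw [sum_add_distrib, ← mul_sum, sum_ite, ← mul_sum, ← mul_sum] at s3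
  have s5 : ∑ j ∈ (range (L + 1)).filter (fun j => j < j₁), (2 : ℝ) ^ j ≤ 2 ^ j₁ := by
    refine (sum_le_sum_of_subset_of_nonneg (t := range j₁)
      (fun j hj => mem_range.2 (mem_filter.1 hj).2) fun _ _ _ => by positivity).trans ?_
    have := geom_sum_mul (2 : ℝ) j₁
    linarith
  have s6 := mul_le_mul_of_nonneg_left hW
    (show 0 ≤ 68 * 2 ^ L * G * (2 * om κ js L + 9) by positivity)
  have s7 := mul_le_mul_of_nonneg_left s5 (show 0 ≤ 2 ^ L * u * G by positivity)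
  have s8 := mul_le_mul_of_nonneg_right hcard h0
  have s9 := mul_le_mul_of_nonneg_left hW' (show 0 ≤ 68 * 2 ^ L * G by positivity)
  linarith

end

end Pool.Agent.P.MP_2b866c_nt.Poly
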