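import Pool.Agent.P.MP_2b866c_nt.Poly.Core
import Pool.Agent.P.MP_2b866c_nt.Height

/-!
A test function read at the first passage point; it is monotone along the flow and well spread
over the residue classes modulo powers of three.
-/

set_option autoImplicit false

open Finset

namespace Pool.Agent.P.MP_2b866c_nt.Poly

lemma tau_shift {j N s : ℕ} (h : Reach N) (hs : s ≤ tau j N) :
    tau j N = tau j (T^[s] N) + s := by
  obtain ⟨d, hd⟩ := Nat.exists_eq_add_of_le' hs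
  rw [hd, tau_eq (t := d) ?_ fun i hi => ?_]
  · rw [← Function.iterate_add_apply, ← hd]; exact pt_lt h j
  · rw [← Function.iterate_add_apply]; exact le_of_lt_tau (by omega)

lemma pt_shift {j N s : ℕ} (h : Reach N) (hs : s ≤ tau j N) : pt j (T^[s] N) = pt j N := by
  conv_rhs => rw [pt, tau_shift h hs, Function.iterate_add_apply]
  rfl

lemma kk_shift {j N s : ℕ} (h : Reach N) (hs : s ≤ tau j N) :
    kk j N = kk j (T^[s] N) + J s N := by
  rw [kk, tau_shift h hs, J_add]; rfl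

lemma kk_iter_le {N : ℕ} (h : Reach N) (s : ℕ) : kk 0 (T^[s] N) ≤ kk 0 N := by
  rcases le_total s (tau 0 N) with hs | hs
  · rw [kk_shift h hs]; omega
  · obtain ⟨d, rfl⟩ := Nat.exists_eq_add_of_le' hs
    have h1 : T^[tau 0 N] N = 1 := by
      have := pt_lt h 0
      have := (h.pt 0).pos
      unfold pt at *
      omega
    rw [Function.iterate_add_apply, h1]
    rcases iter_one_le d with e | e <;> rw [e]
    · rw [kk, tau_zero (by norm_num)]; simp [J, bits]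
    · rw [kk, tau_eq (t := 1) (by simp [T]) (by simp)]; simp [J, bits]

lemma kk_pt_le {N : ℕ} (h : Reach N) (j : ℕ) : kk 0 (pt j N) ≤ kk 0 N := kk_iter_le h _

/-- Quick descent to the scale `R`, from every point of the orbit. -/
def Quick (R N : ℕ) : Prop := Reach N ∧ lg (tau R N) N ≤ (R + 2) / 2 ^ R ∧
  ∀ s ≤ tau R N, tau R (T^[s] N) ≤ Nat.log 2 (T^[s] N) ^ 2

lemma Quick.shift {R N s : ℕ} (h : Quick R N) (hs : s ≤ tau R N) : Quick R (T^[s] N) := by
  obtain ⟨h1, h2, h3⟩ := h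
  have e := tau_shift h1 hs
  refine ⟨h1.iter s, ?_, fun u hu => ?_⟩
  · rw [e, lg_add] at h2
    linarith [lg_nonneg s h1.pos]
  · rw [← Function.iterate_add_apply]; exact h3 _ (by omega)

lemma Good.quick {L R N : ℕ} (hN : Reach N) (h1 : 2 ^ L ≤ N) (h2 : N < 2 ^ (L + 1)) (hR : R ≤ L)
    (hg : Good L R N) : Quick R N := by
  refine ⟨hN, good_lg hN h1 h2 hR hg, fun s hs => ?_⟩
  have e := tau_shift hN hs
  by_cases hlt : s < tau R N
  swap
  · omega
  obtain ⟨i, i1, i2, i3⟩ := exists_last (fun i => s < tau i N) L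
  have hRi : R ≤ i := not_lt.1 fun hc => i2 R hc hR hlt
  have hP : s < tau i N := by
    rcases i3 with rfl | h
    · obtain rfl : R = 0 := by omega
      exact hlt
    · exact h
  have hiL : i + 1 ≤ L := by
    by_contra hc
    obtain rfl : i = L := by omega
    rw [tau_zero h2] at hP; omega
  have a1 := not_lt.1 (i2 (i + 1) (by omega) hiL)
  have a2 := tau_add hN (show R ≤ i + 1 by omega)
  have a3 := good_tau (hN.pt _) (le_pt ((Nat.pow_le_pow_right (by norm_num) hiL).trans h1))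
    (pt_lt hN _) (show R ≤ i + 1 by omega) (hg.pt hN hiL)
  have a4 : i + 1 ≤ Nat.log 2 (T^[s] N) := Nat.le_log_of_pow_le (by norm_num) (le_of_lt_tau hP)
  have a5 := Nat.pow_le_pow_left a4 2
  omega

open Classical in
/-- The test function. -/
noncomputable def Psi (R : ℕ) (B : Finset ℕ) (Y : ℕ) : ℝ :=
  if Quick R Y ∧ pt R Y ∈ B then (kk 0 (pt R Y) : ℝ) else 0

lemma Psi_nonneg (R : ℕ) (B : Finset ℕ) (Y : ℕ) : 0 ≤ Psi R B Y := by
  unfold Psi; split_ifs <;> positivity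

lemma Psi_mono (R : ℕ) (B : Finset ℕ) (t N : ℕ) (h : 2 ^ t * 2 ^ (R + 1) ≤ N) :
    Psi R B N ≤ Psi R B (T^[t] N) := by
  by_cases hq : Quick R N ∧ pt R N ∈ B
  · have ht : t ≤ tau R N := by
      by_contra hc
      have a1 := pre_le (tau R N) N
      have a2 := pt_lt hq.1.1 R
      have a3 : 2 ^ tau R N ≤ 2 ^ t := Nat.pow_le_pow_right (by norm_num) (by omega)
      have a4 : 2 ^ tau R N * pt R N < 2 ^ t * 2 ^ (R + 1) :=
        Nat.mul_lt_mul_of_le_of_lt a3 a2 (by positivity)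
      unfold pt at a4
      omega
    have e := pt_shift hq.1.1 ht
    rw [Psi, Psi, if_pos hq, if_pos ⟨hq.1.shift ht, e ▸ hq.2⟩, e]
  · rw [Psi, if_neg hq]; exact Psi_nonneg _ _ _

lemma Psi_spread {R : ℕ} {B : Finset ℕ} {μ : ℝ} (hμ : ∑ n ∈ B, (kk 0 n : ℝ) ≤ μ * 2 ^ R)
    (hR : 4 ≤ R) (N : ℕ) (g : ℕ → ℝ) (y : ℝ) (hg : Per N g) (h0 : ∀ Y, 0 ≤ g Y)
    (hy : 3 ^ N * ((2 ^ (R + 1) : ℕ) : ℝ) ≤ y) :
    Sm (Psi R B) g y ≤ 3000 * μ * Real.log y ^ 5 * y * avg N g := by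
  classical
  push_cast at hy
  have b1 : (1 : ℝ) ≤ 3 ^ N := one_le_pow₀ (by norm_num)
  have b2 : (0 : ℝ) < 2 ^ R := by positivity
  have b3 : (2 : ℝ) ^ (R + 1) ≤ y := le_trans (le_mul_of_one_le_left (by positivity) b1) hy
  have hy0 : 0 < y := lt_of_lt_of_le (by positivity) b3
  have l1 := Real.log_two_gt_d9
  have hR' : (4 : ℝ) ≤ R := by exact_mod_cast hR
  have b4 : ((R : ℝ) + 1) * Real.log 2 ≤ Real.log y := by
    have := Real.log_le_log (by positivity) b3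
    rw [Real.log_pow] at this
    exact_mod_cast this
  obtain ⟨l, hl⟩ : ∃ l, l = Real.log y := ⟨_, rfl⟩
  obtain ⟨Λ, hΛ⟩ : ∃ Λ, Λ = Nat.log 2 ⌊y⌋₊ := ⟨_, rfl⟩
  have hΛ2 : (Λ : ℝ) * Real.log 2 ≤ l := by
    have h1 : 2 ^ Λ ≤ ⌊y⌋₊ := hΛ ▸ Nat.pow_log_le_self 2 (Nat.floor_pos.2
      (le_trans (one_le_pow₀ (by norm_num)) b3)).ne'
    have := Real.log_le_log (by positivity)
      (le_trans (show (2 : ℝ) ^ Λ ≤ ⌊y⌋₊ by exact_mod_cast h1) (Nat.floor_le hy0.le))
    rwa [Real.log_pow, ← hl] at this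
  rw [← hl] at b4 ⊢
  have hΛ0 : (0 : ℝ) ≤ Λ := Nat.cast_nonneg _
  have c1 : (R : ℝ) + 2 ≤ 2 * l := by nlinarith
  have c2 : (Λ : ℝ) ≤ 3 / 2 * l := by nlinarith
  have c3 : 3 ≤ l := by linarith
  have c4 : (Λ : ℝ) ^ 2 + 1 ≤ 3 * l ^ 2 := by nlinarith
  have ha := avg_nonneg (N := N) h0
  set w : ℝ := (R + 2) / 2 ^ R with hw
  have hw0 : 0 ≤ w := by positivity
  have hw2 : w ≤ 2 := w_le R
  set S := (Icc 1 ⌊y⌋₊).filter fun Y => Quick R Y ∧ pt R Y ∈ B with hS
  have e1 : Sm (Psi R B) g y = ∑ Y ∈ S, g Y * kk 0 (pt R Y) := by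
    rw [Sm, hS, sum_filter]
    refine sum_congr rfl fun Y _ => ?_
    unfold Psi; split_ifs <;> simp
  have hmaps : ∀ Y ∈ S, (pt R Y, kk R Y, tau R Y) ∈
      B ×ˢ (range (Λ ^ 2 + 1) ×ˢ range (Λ ^ 2 + 1)) := by
    intro Y hY
    obtain ⟨a1, a2, a3⟩ := mem_filter.1 hY
    have a4 : tau R Y ≤ Λ ^ 2 := (a2.2.2 0 (Nat.zero_le _)).trans
      (Nat.pow_le_pow_left (hΛ ▸ Nat.log_mono_right (mem_Icc.1 a1).2) 2)
    have := kk_le R Y
    exact mem_product.2 ⟨a3, mem_product.2 ⟨mem_range.2 (by simp only; omega),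
      mem_range.2 (by simp only; omega)⟩⟩
  have hexp : Real.exp w ≤ 8 := by
    have h1 : Real.exp w ≤ Real.exp 1 * Real.exp 1 := by
      rw [← Real.exp_add]; exact Real.exp_le_exp.2 (by linarith)
    have h2 := Real.exp_one_lt_d9
    have h3 := Real.exp_pos 1
    nlinarith
  have hfib : ∀ p ∈ B ×ˢ (range (Λ ^ 2 + 1) ×ˢ range (Λ ^ 2 + 1)),
      ∑ Y ∈ S.filter (fun Y => (pt R Y, kk R Y, tau R Y) = p), g Y * kk 0 (pt R Y)
        ≤ kk 0 p.1 * (18 * l * (y / 2 ^ R) * avg N g) := by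
    intro p _
    rw [sum_congr rfl (g := fun Y => (kk 0 p.1 : ℝ) * g Y) fun Y hY => by
      rw [← (mem_filter.1 hY).2, mul_comm], ← mul_sum]
    refine mul_le_mul_of_nonneg_left ?_ (Nat.cast_nonneg _)
    set Y₀ : ℝ := 2 ^ p.2.2 * p.1 / 3 ^ p.2.1 with hY₀
    refine (sum_le_of_interval hg h0 _ (Y₀ - 8 * y * w) (8 * y * w) (by positivity)
      fun Y hY => ?_).trans (mul_le_mul_of_nonneg_right ?_ ha)
    · obtain ⟨a0, hp⟩ := mem_filter.1 hY
      obtain ⟨a1, a2, _⟩ := mem_filter.1 a0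
      have hY0 : (0 : ℝ) < Y := by exact_mod_cast a2.1.pos
      have hn0 : (0 : ℝ) < pt R Y := by exact_mod_cast (a2.1.pt R).pos
      have hYy : (Y : ℝ) ≤ y := le_trans (by exact_mod_cast (mem_Icc.1 a1).2) (Nat.floor_le hy0.le)
      have hY₀0 : 0 < Y₀ := by rw [hY₀, ← hp]; positivity
      have e : Real.log Y₀ = Real.log Y + lg (tau R Y) Y := by
        rw [hY₀, ← hp, Real.log_div (by positivity) (by positivity),
          Real.log_mul (by positivity) hn0.ne', Real.log_pow, Real.log_pow, lg, pt, kk]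
        ring
      have k1 : (Y : ℝ) ≤ Y₀ := by
        rw [← Real.log_le_log_iff hY0 hY₀0, e]; linarith [lg_nonneg (tau R Y) a2.1.pos]
      have k2 : Y₀ ≤ Y * Real.exp w := by
        rw [← Real.log_le_log_iff hY₀0 (by positivity), e,
          Real.log_mul hY0.ne' (Real.exp_pos _).ne', Real.log_exp]
        linarith [a2.2.1]
      have k3 : Y₀ ≤ 8 * y := by nlinarith
      have m1 : Y₀ * Real.exp (-w) ≤ Y := by
        rw [Real.exp_neg, ← div_eq_mul_inv, div_le_iff₀ (Real.exp_pos _)]; exact k2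
      have m2 : 1 - w ≤ Real.exp (-w) := by linarith [Real.add_one_le_exp (-w)]
      exact ⟨by nlinarith, by linarith⟩
    · have d1 : (3 : ℝ) ^ N ≤ y / 2 ^ R := by
        rw [le_div_iff₀ b2]
        refine le_trans ?_ hy
        gcongr
        · norm_num
        · omega
      have d2 : 8 * y * w ≤ 16 * l * (y / 2 ^ R) := by
        calc _ = 8 * (R + 2) * (y / 2 ^ R) := by rw [hw]; ring
          _ ≤ 8 * (2 * l) * (y / 2 ^ R) := by gcongr
          _ = _ := by ring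
      have d3 : y / 2 ^ R ≤ l * (y / 2 ^ R) := le_mul_of_one_le_left (by positivity) (by linarith)
      linarith
  rw [e1, ← sum_fiberwise_of_maps_to hmaps]
  refine (sum_le_sum hfib).trans ?_
  rw [← sum_mul, sum_product]
  simp only [sum_const, card_product, card_range, nsmul_eq_mul]
  rw [← mul_sum]
  push_cast
  have hμ0 : 0 ≤ μ :=
    nonneg_of_mul_nonneg_left ((sum_nonneg fun _ _ => Nat.cast_nonneg _).trans hμ) b2
  calc _ ≤ (3 * l ^ 2) * (3 * l ^ 2) * (μ * 2 ^ R) * (18 * l * (y / 2 ^ R) * avg N g) := by gcongr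
    _ = 162 * μ * l ^ 5 * y * avg N g := by field_simp; ring
    _ ≤ _ := by gcongr; norm_num

end Pool.Agent.P.MP_2b866c_nt.Poly
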