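import Pool.Agent.P.MP_2b866c_nt.Forget

/-!
Transport of an unbounded but well spread test function from a large scale down to a base scale.
-/

set_option autoImplicit false

open Finset

namespace Pool.Agent.P.MP_2b866c_nt.Poly

lemma blockM {m t j : ℕ} (hj : j ≤ t) {h Ψ : ℕ → ℝ} {M : ℝ} (hM : 0 < M) (hh : Per m h)
    (h0 : ∀ Y, 0 ≤ h Y) (hΨ0 : ∀ Y, 0 ≤ Ψ Y) (hΨ1 : ∀ Y, Ψ Y ≤ M) (x : ℝ) (hx : 0 ≤ x) :
    |(∑ N ∈ Icc 1 ⌊x⌋₊, if J t N = j then h N * Ψ (T^[t] N) else 0)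
      - 2 ^ t / 3 ^ j * Sm Ψ (gj t j h) (3 ^ j * x / 2 ^ t)|
      ≤ M * Er t m * (pb t j * avg m h) := by
  have a1 := block hj hh h0 (Φ := fun Y => Ψ Y / M) (fun Y => div_nonneg (hΨ0 Y) hM.le)
    (fun Y => (div_le_one hM).2 (hΨ1 Y)) x hx
  have e1 : (∑ N ∈ Icc 1 ⌊x⌋₊, if J t N = j then h N * Ψ (T^[t] N) else 0)
      = M * ∑ N ∈ Icc 1 ⌊x⌋₊, if J t N = j then h N * (Ψ (T^[t] N) / M) else 0 := by
    rw [mul_sum]
    refine sum_congr rfl fun N _ => ?_
    split_ifs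
    · field_simp
    · simp
  have e2 : ∀ y, Sm Ψ (gj t j h) y = M * Sm (fun Y => Ψ Y / M) (gj t j h) y := by
    intro y
    rw [Sm, Sm, mul_sum]
    refine sum_congr rfl fun N _ => ?_
    field_simp
  rw [e1, e2, mul_left_comm, ← mul_sub, abs_mul, abs_of_pos hM, mul_assoc]
  exact mul_le_mul_of_nonneg_left a1 hM.le

lemma Sm_le_add {Ψ : ℕ → ℝ} (hΨ0 : ∀ Y, 0 ≤ Ψ Y) (g g' : ℕ → ℝ) (y : ℝ) :
    Sm Ψ g y ≤ Sm Ψ g' y + Sm Ψ (fun Y => |g Y - g' Y|) y := by
  unfold Sm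
  rw [← sum_add_distrib]
  refine sum_le_sum fun Y _ => ?_
  rw [← add_mul]
  exact mul_le_mul_of_nonneg_right (by linarith [le_abs_self (g Y - g' Y)]) (hΨ0 Y)

theorem transport (c : ℝ) (hc : 10 ≤ c) : ∃ K : ℝ, 0 ≤ K ∧
    ∀ (Ψ : ℕ → ℝ) (z : ℕ) (M μ W L₀ L₁ : ℝ), 20 * c ≤ L₁ → 1 ≤ μ → 0 ≤ W → 0 < M →
    M ≤ Real.exp (L₁ / 10) → 1 ≤ z → Real.log z ≤ (1 - 5 / c) * L₁ → L₁ ≤ (1 - 1 / c) * L₀ →
    (∀ Y, 0 ≤ Ψ Y) → (∀ Y, Ψ Y ≤ M) → (∀ t N, 2 ^ t * z ≤ N → Ψ N ≤ Ψ (T^[t] N)) →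
    (∀ (N : ℕ) (g : ℕ → ℝ) (y : ℝ), Per N g → (∀ Y, 0 ≤ g Y) → 3 ^ N * (z : ℝ) ≤ y →
      Sm Ψ g y ≤ μ * Real.log y ^ 5 * y * avg N g) →
    (∀ (y : ℝ) (t : ℕ), 0 < y → Real.log y ≤ L₀ → ∑ N ∈ Icc 1 ⌊y⌋₊, Ψ (T^[t] N) ≤ W * y) →
    ∀ x : ℝ, 0 < x → L₁ ≤ Real.log x → Sm Ψ (fun _ => 1) x ≤ (W + K * μ / L₁) * x := by
  obtain ⟨C₁, hC₁0, hC₁⟩ := mix 6
  obtain ⟨C₂, hC₂0, hC₂⟩ := gj_close 6
  have hc0 : 0 < c := by linarith
  obtain ⟨Ka, hKa⟩ : ∃ Ka : ℝ, Ka = (Nat.factorial 6 : ℕ) / (2 / c) ^ 6 := ⟨_, rfl⟩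
  obtain ⟨Kb, hKb⟩ : ∃ Kb : ℝ, Kb = (Nat.factorial 6 : ℕ) / (2 * (1 / 100) ^ 2) ^ 6 := ⟨_, rfl⟩
  have hKa0 : 0 ≤ Ka := by rw [hKa]; positivity
  have hKb0 : 0 ≤ Kb := by rw [hKb]; positivity
  obtain ⟨C₃, hC₃⟩ : ∃ C₃ : ℝ, C₃ = Ka + 10 + 32 * (2 * c) ^ 6 * (C₁ + C₂ + Kb) := ⟨_, rfl⟩
  have hC₃0 : 0 ≤ C₃ := by rw [hC₃]; positivity
  obtain ⟨K, hK⟩ : ∃ K : ℝ, K = 20 * c * C₃ := ⟨_, rfl⟩
  have hK0 : 0 ≤ K := by rw [hK]; positivity
  have hKC : C₃ ≤ K := by rw [hK]; nlinarith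
  refine ⟨2 * K, by positivity, fun Ψ z M μ W L₀ L₁ hL₁ hμ hW hM hML hz hzL hL₀ hΨ0 hΨ1 hΨT hsp
    hbase => ?_⟩
  have hL₁0 : 0 < L₁ := by linarith
  have hz0 : (0 : ℝ) < z := by exact_mod_cast hz
  have l1 := Real.log_two_gt_d9
  have l2 := Real.log_two_lt_d9
  have l3 : Real.log 3 ≤ 1.1 := by
    have := lam_ge
    have : (0.2876 : ℝ) < Real.log (4 / 3) := by
      rw [Real.lt_log_iff_exp_lt (by norm_num)]
      have := Real.exp_bound' (x := 0.2876) (by norm_num) (by norm_num) (n := 5) (by norm_num)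
      refine this.trans_lt ?_
      simp [sum_range_succ, Nat.factorial]
      norm_num
    rw [log_three_eq]; linarith
  have l4 : 0 ≤ Real.log 3 := Real.log_nonneg (by norm_num)
  have main : ∀ n : ℕ, ∀ y : ℝ, 0 < y → L₁ ≤ Real.log y → Real.log y ≤ n → ∀ (m : ℕ) (h : ℕ → ℝ),
      m ^ 2 ≤ ⌊Real.log y / c⌋₊ → (∀ Y, 0 ≤ h Y) → Per m h →
      Sm Ψ h y ≤ avg m h * ((W + μ * (2 * K / L₁ - K / Real.log y)) * y) := by
    intro n
    induction n with
    | zero => intro y _ h1 h2; simp only [Nat.cast_zero] at h2; linarith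
    | succ n ih =>
    intro x hx hL hLn m h hm h0 hh
    obtain ⟨L, hLdef⟩ : ∃ L, L = Real.log x := ⟨_, rfl⟩
    rw [← hLdef] at hL hLn hm ⊢
    have hL0 : 0 < L := by linarith
    obtain ⟨v, hv⟩ : ∃ v, v = L / c := ⟨_, rfl⟩
    have hvc : v * c = L := by rw [hv]; field_simp
    have hv20 : 20 ≤ v := by rw [hv, le_div_iff₀ hc0]; linarith
    have hv10 : v ≤ L / 10 := by nlinarith
    rw [← hv] at hm
    obtain ⟨t, ht⟩ : ∃ t, t = ⌊v⌋₊ := ⟨_, rfl⟩
    rw [← ht] at hm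
    have ht1 : (t : ℝ) ≤ v := ht ▸ Nat.floor_le (by linarith)
    have ht2 : v < t + 1 := ht ▸ Nat.lt_floor_add_one _
    have ht3 : v / 2 ≤ t := by linarith
    have ht0 : (0 : ℝ) < t := by linarith
    have ht4 : 4 ≤ t := by exact_mod_cast (by linarith : (4 : ℝ) ≤ t)
    have hmt : m ≤ t := le_trans (Nat.le_self_pow (by norm_num) m) hm
    have hmt' : (m : ℝ) ≤ t := by exact_mod_cast hmt
    obtain ⟨A, hA⟩ : ∃ A, A = avg m h := ⟨_, rfl⟩
    have hA0 : 0 ≤ A := hA ▸ avg_nonneg h0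
    rw [← hA]
    have hxL : x = Real.exp L := by rw [hLdef, Real.exp_log hx]
    have hzL' : Real.log z ≤ L - 5 * v := by
      have : (1 - 5 / c) * L₁ ≤ (1 - 5 / c) * L := by
        refine mul_le_mul_of_nonneg_left hL ?_
        rw [sub_nonneg, div_le_one hc0]; linarith
      have e : (1 - 5 / c) * L = L - 5 * v := by rw [hv]; ring
      linarith
    have gap : (2 : ℝ) ^ t * (3 ^ (t + m) * z) ≤ x * Real.exp (-(2 / c * L)) := by
      rw [hxL, ← Real.exp_add, ← Real.log_le_iff_le_exp (by positivity),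
        Real.log_mul (by positivity) (by positivity), Real.log_mul (by positivity) hz0.ne',
        Real.log_pow, Real.log_pow, show 2 / c * L = 2 * v by rw [hv]; ring]
      push_cast
      nlinarith
    have gap1 : Real.exp (-(2 / c * L)) ≤ 1 := Real.exp_le_one_iff.2 (by
      have : 0 ≤ 2 / c * L := by positivity
      linarith)
    have gap2 : (2 : ℝ) ^ t * (3 ^ (t + m) * z) ≤ x :=
      gap.trans (mul_le_of_le_one_right hx.le gap1)
    have hμL : ∀ a : ℝ, 0 ≤ a → a / L ≤ μ * (a / L) := fun a ha =>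
      le_mul_of_one_le_left (by positivity) hμ
    have hE : M * Er t m ≤ μ * (5 / L) * x := by
      have a1 : Er t m ≤ 3 * Real.exp (3 / 10 * L) := err_le (by linarith) hmt
      have a2 : M ≤ Real.exp (L / 10) := hML.trans (Real.exp_le_exp.2 (by linarith))
      have a3 : Real.exp (L / 10) * Real.exp (3 / 10 * L) * Real.exp (6 / 10 * L) = x := by
        rw [hxL, ← Real.exp_add, ← Real.exp_add]; congr 1; ring
      have a4 := Real.add_one_le_exp (6 / 10 * L)
      have a5 : M * Er t m ≤ 5 / L * x := by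
        calc _ ≤ Real.exp (L / 10) * (3 * Real.exp (3 / 10 * L)) := by
              refine mul_le_mul a2 a1 ?_ (by positivity)
              unfold Er; positivity
          _ ≤ _ := by
              rw [← a3, div_mul_eq_mul_div 5 L, le_div_iff₀ hL0]
              have : 0 ≤ Real.exp (L / 10) * Real.exp (3 / 10 * L) := by positivity
              nlinarith
      exact a5.trans (mul_le_mul_of_nonneg_right (hμL 5 (by norm_num)) hx.le)
    have s1 : Sm Ψ h x ≤ A * (μ * (Ka / L) * x) + ∑ j ∈ range (t + 1), ∑ N ∈ Icc 1 ⌊x⌋₊,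
        if J t N = j then h N * Ψ (T^[t] N) else 0 := by
      rw [← sum_split_J t _ (fun j N => h N * Ψ (T^[t] N))]
      set y' : ℝ := 2 ^ t * (3 ^ (t + m) * z) with hy'
      have b0 : (1 : ℝ) ≤ 2 ^ t := one_le_pow₀ (by norm_num)
      have b1 : (1 : ℝ) ≤ 3 ^ (t + m) := one_le_pow₀ (by norm_num)
      have b2 : (1 : ℝ) ≤ z := by exact_mod_cast hz
      have b3 : (3 : ℝ) ^ (t + m) * z ≤ y' := le_mul_of_one_le_left (by positivity) b0
      have b4 : 1 ≤ y' := le_trans (by nlinarith) b3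
      have a1 : Sm Ψ h y' ≤ A * (μ * (Ka / L) * x) := by
        have c1 := hsp (t + m) h y' (hh.mono (by omega)) h0 b3
        rw [avg_eq hh (by omega), ← hA] at c1
        have c2 : Real.log y' ≤ L := hLdef ▸ Real.log_le_log (by linarith) gap2
        have c3 := Real.log_nonneg b4
        have c4 := exp_neg_le (2 / c) (by positivity) 6 L hL0
        rw [← hKa] at c4
        calc _ ≤ _ := c1
          _ ≤ μ * L ^ 5 * (x * (Ka / L ^ 6)) * A := by
              gcongr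
              exact gap.trans (by gcongr)
          _ = _ := by field_simp
      refine le_trans ?_ (add_le_add a1 le_rfl)
      have a2 : Sm Ψ h x ≤ ∑ N ∈ Icc 1 ⌊x⌋₊, ((if N < 2 ^ t * z then h N * Ψ N else 0)
          + h N * Ψ (T^[t] N)) := by
        refine sum_le_sum fun N _ => ?_
        split_ifs with hN
        · exact le_add_of_nonneg_right (mul_nonneg (h0 _) (hΨ0 _))
        · rw [zero_add]
          exact mul_le_mul_of_nonneg_left (hΨT t N (not_lt.1 hN)) (h0 N)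
      rw [sum_add_distrib, ← sum_filter] at a2
      refine a2.trans (add_le_add (sum_le_sum_of_subset_of_nonneg (fun N hN => ?_)
        fun N _ _ => mul_nonneg (h0 _) (hΨ0 _)) le_rfl)
      obtain ⟨c1, c2⟩ := mem_filter.1 hN
      refine mem_Icc.2 ⟨(mem_Icc.1 c1).1, Nat.le_floor ?_⟩
      have c3 : (N : ℝ) ≤ 2 ^ t * z := by exact_mod_cast c2.le
      refine c3.trans ?_
      rw [hy']
      gcongr
      exact le_mul_of_one_le_left hz0.le b1
    have sp : ∀ j ≤ t, ∀ g : ℕ → ℝ, Per (t + m) g → (∀ Y, 0 ≤ g Y) →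
        2 ^ t / 3 ^ j * Sm Ψ g (3 ^ j * x / 2 ^ t) ≤ 32 * μ * L ^ 5 * x * avg (t + m) g := by
      intro j hj g hg hg0
      have b1 : (1 : ℝ) ≤ 3 ^ j := one_le_pow₀ (by norm_num)
      have hj' : (j : ℝ) ≤ t := by exact_mod_cast hj
      have hj0 : (0 : ℝ) ≤ j := Nat.cast_nonneg _
      have c1 := hsp (t + m) g (3 ^ j * x / 2 ^ t) hg hg0 (by
        rw [le_div_iff₀ (by positivity), mul_comm]
        exact gap2.trans (le_mul_of_one_le_left hx.le b1))
      have c2 := log_scale j t hx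
      rw [← hLdef] at c2
      have c3 : Real.log (3 ^ j * x / 2 ^ t) ≤ 2 * L := by rw [c2]; nlinarith
      have c4 : 0 ≤ Real.log (3 ^ j * x / 2 ^ t) := by rw [c2]; nlinarith
      have c5 := avg_nonneg (N := t + m) hg0
      calc _ ≤ 2 ^ t / 3 ^ j * (μ * (2 * L) ^ 5 * (3 ^ j * x / 2 ^ t) * avg (t + m) g) := by
            gcongr
            exact c1.trans (by gcongr)
        _ = _ := by field_simp; ring
    have pw : ∀ a : ℝ, 0 ≤ a → 32 * μ * L ^ 5 * x * (a / t ^ 6 * A)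
        ≤ A * (μ * (32 * (2 * c) ^ 6 * a / L) * x) := by
      intro a ha
      calc _ ≤ 32 * μ * L ^ 5 * x * (a / (v / 2) ^ 6 * A) := by gcongr
        _ = _ := by rw [hv]; field_simp
    have hμ0 : 0 ≤ μ := by linarith
    have Aμx : 0 ≤ A * μ * x := by positivity
    have q0 : 0 ≤ 32 * μ * L ^ 5 * x := by positivity
    have hE' := mul_le_mul_of_nonneg_left hE hA0
    by_cases hLL : L ≤ L₀
    · have s2 : ∀ j ∈ range (t + 1), (∑ N ∈ Icc 1 ⌊x⌋₊,
          if J t N = j then h N * Ψ (T^[t] N) else 0) ≤ A * (∑ N ∈ Icc 1 ⌊x⌋₊,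
          if J t N = j then 1 * Ψ (T^[t] N) else 0) + 2 * (A * (M * Er t m)) * pb t j
          + 32 * μ * L ^ 5 * x *
            avg (t + m) (fun Y => |gj t j h Y - A * gj t j (fun _ => 1) Y|) := by
        intro j hj
        have hj' : j ≤ t := Nat.lt_succ_iff.1 (mem_range.1 hj)
        have c1 := (abs_le.1 (blockM hj' hM hh h0 hΨ0 hΨ1 x hx.le)).2
        have c2 := (abs_le.1 (blockM (m := m) (h := fun _ => 1) hj' hM (fun _ => rfl)
          (fun _ => zero_le_one) hΨ0 hΨ1 x hx.le)).1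
        rw [avg_const] at c2
        rw [← hA] at c1
        have c3 := Sm_le_add hΨ0 (gj t j h) (fun Y => A * gj t j (fun _ => 1) Y)
          (3 ^ j * x / 2 ^ t)
        rw [Sm_mul] at c3
        have c4 := mul_le_mul_of_nonneg_left c3 (show (0 : ℝ) ≤ 2 ^ t / 3 ^ j by positivity)
        have c5 := sp j hj' (fun Y => |gj t j h Y - A * gj t j (fun _ => 1) Y|) (fun Y => by
          simp only [gj_per (t := t) hh (show m + j ≤ t + m by omega) Y,
            gj_per (t := t) (per_const 1) (show 0 + j ≤ t + m by omega) Y]) fun _ => abs_nonneg _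
        have c6 := mul_le_mul_of_nonneg_left c2 hA0
        linarith
      have s3 := sum_le_sum s2
      rw [sum_add_distrib, sum_add_distrib, ← mul_sum, ← mul_sum, ← mul_sum, sum_pb t _ (by omega),
        ← sum_split_J t _ (fun j N => 1 * Ψ (T^[t] N))] at s3
      simp only [one_mul] at s3
      have s4 := hC₂ t m h (by omega) hm h0 hh
      rw [← hA] at s4
      have s5 := (mul_le_mul_of_nonneg_left s4 q0).trans (pw C₂ hC₂0)
      have s6 := mul_le_mul_of_nonneg_left (hbase x t hx (hLdef ▸ hLL)) hA0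
      have s7 : Ka / L + 2 * (5 / L) + 32 * (2 * c) ^ 6 * C₂ / L ≤ 2 * K / L₁ - K / L := by
        have d1 : K / L ≤ K / L₁ := by gcongr
        have d2 : C₃ / L ≤ K / L := by gcongr
        have d3 : 0 ≤ 32 * (2 * c) ^ 6 * (C₁ + Kb) / L := by positivity
        have d4 : C₃ / L = Ka / L + 2 * (5 / L) + 32 * (2 * c) ^ 6 * C₂ / L
            + 32 * (2 * c) ^ 6 * (C₁ + Kb) / L := by rw [hC₃]; ring
        rw [mul_div_assoc 2]
        linarith
      have s8 := mul_le_mul_of_nonneg_left s7 Aμx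
      linarith
    push Not at hLL
    obtain ⟨m', hm'⟩ : ∃ m', m' = Nat.sqrt (Nat.sqrt t) := ⟨_, rfl⟩
    have hm'2 : 2 * m' ^ 2 ≤ t := by
      have a1 := Nat.sqrt_le' (Nat.sqrt t)
      have a2 := Nat.sqrt_le' t
      have a4 : 2 ≤ Nat.sqrt t := Nat.le_sqrt'.2 (by omega)
      rw [hm']; nlinarith
    have hm'1 : m' ≤ t + m := by have := Nat.le_self_pow (n := 2) (by norm_num) m'; omega
    have hmix := hC₁ t m m' h (by omega) hm (hm' ▸ quarter_root) hm'1 h0 hh
    rw [← hA] at hmix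
    obtain ⟨R, hR⟩ : ∃ R, R = W + μ * (2 * K / L₁ - (K + C₃) / L) := ⟨_, rfl⟩
    have hR0 : 0 ≤ R := by
      have d1 : (K + C₃) / L ≤ 2 * K / L₁ := by gcongr; linarith
      rw [hR]; exact add_nonneg hW (mul_nonneg hμ0 (by linarith))
    have s2 : ∀ j ∈ range (t + 1), (∑ N ∈ Icc 1 ⌊x⌋₊,
        if J t N = j then h N * Ψ (T^[t] N) else 0)
        ≤ (A * (R * x) + A * (M * Er t m)) * pb t j
          + 32 * μ * L ^ 5 * x * avg (t + m) (fun Y => |gj t j h Y - Pr (t + m) m' (gj t j h) Y|)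
          + 32 * μ * L ^ 5 * x * A *
            (pb t j * if (t : ℝ) / 2 + 1 / 100 * t ≤ j then 1 else 0) := by
      intro j hj
      have hj' : j ≤ t := Nat.lt_succ_iff.1 (mem_range.1 hj)
      have hj0 : (0 : ℝ) ≤ j := Nat.cast_nonneg _
      have c1 := (abs_le.1 (blockM hj' hM hh h0 hΨ0 hΨ1 x hx.le)).2
      rw [← hA] at c1
      have hp := pb_nonneg t j
      have hg := gj_per (t := t) hh (show m + j ≤ t + m by omega)
      have ha := avg_gj (t := t) hh (show m + j ≤ t + m by omega)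
      rw [← hA] at ha
      have q2 : 0 ≤ 32 * μ * L ^ 5 * x *
          avg (t + m) (fun Y => |gj t j h Y - Pr (t + m) m' (gj t j h) Y|) :=
        mul_nonneg q0 (avg_nonneg fun _ => abs_nonneg _)
      split_ifs with h4
      · have d1 := sp j hj' _ hg (gj_nonneg t j h0)
        rw [ha] at d1
        have d2 : 0 ≤ A * (R * x) * pb t j := by positivity
        linarith
      · have q3 : (0 : ℝ) < 2 ^ t / 3 ^ j := by positivity
        have d1 := mul_le_mul_of_nonneg_left (Sm_le_add hΨ0 (gj t j h) (Pr (t + m) m' (gj t j h))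
          (3 ^ j * x / 2 ^ t)) q3.le
        have d2 := sp j hj' (fun Y => |gj t j h Y - Pr (t + m) m' (gj t j h) Y|) (fun Y => by
          simp only [hg Y, ((Pr_per (t + m) m' (gj t j h)).mono hm'1) Y]) fun _ => abs_nonneg _
        obtain ⟨y, hy⟩ : ∃ y : ℝ, y = 3 ^ j * x / 2 ^ t := ⟨_, rfl⟩
        have ly := log_scale j t hx
        rw [← hy] at ly d1 d2 c1
        rw [← hLdef] at ly
        have hy0 : 0 < y := by rw [hy]; positivity
        have c2 : (2 : ℝ) ^ t / 3 ^ j * y = x := by rw [hy]; field_simp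
        have ly1 : L - v ≤ Real.log y := by nlinarith
        have ly2 : Real.log y ≤ L - v / 20 := by
          have u1 : (j : ℝ) * Real.log 3 ≤ (51 / 100 * t) * 1.1 := by
            gcongr; linarith
          nlinarith
        have ly3 : L₁ ≤ Real.log y := by
          have : (1 - 1 / c) * L₀ ≤ (1 - 1 / c) * L := by
            refine mul_le_mul_of_nonneg_left hLL.le ?_
            rw [sub_nonneg, div_le_one hc0]; linarith
          have e : (1 - 1 / c) * L = L - v := by rw [hv]; ring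
          linarith
        have d3 := ih y hy0 ly3 (by push_cast at hLn; linarith) m' (Pr (t + m) m' (gj t j h))
          (Nat.le_floor (by
            have : (2 : ℝ) * m' ^ 2 ≤ t := by exact_mod_cast hm'2
            rw [le_div_iff₀ hc0]
            push_cast
            nlinarith)) (Pr_nonneg _ _ (gj_nonneg t j h0)) (Pr_per _ _ _)
        rw [← avg_eq (Pr_per _ _ _) hm'1, avg_Pr hm'1, ha] at d3
        have d4 : (K + C₃) / L ≤ K / Real.log y := by
          rw [div_le_div_iff₀ hL0 (by linarith)]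
          have e1 : K * (v / 20) = C₃ * L := by rw [hK, ← hvc]; ring
          have e2 := mul_le_mul_of_nonneg_left ly2 (add_nonneg hK0 hC₃0)
          have e3 : 0 ≤ C₃ * v := by positivity
          linarith
        have d5 : W + μ * (2 * K / L₁ - K / Real.log y) ≤ R := by
          rw [hR]; gcongr
        have d6 := mul_le_mul_of_nonneg_left (d3.trans (mul_le_mul_of_nonneg_left
          (mul_le_mul_of_nonneg_right d5 hy0.le) (mul_nonneg hp hA0))) q3.le
        have d7 : (2 : ℝ) ^ t / 3 ^ j * (pb t j * A * (R * y)) = A * (R * x) * pb t j := by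
          rw [← c2]; ring
        linarith
    have s3 := sum_le_sum s2
    rw [sum_add_distrib, sum_add_distrib, ← mul_sum, ← mul_sum, ← mul_sum,
      sum_pb t _ (by omega), ← Bn_eq_sum t _ (by omega)] at s3
    have a1 := hoeff_up t t (1 / 100 * t) le_rfl ht0 (by positivity)
      (fun j => (t : ℝ) / 2 + 1 / 100 * t ≤ j) (fun _ h => h)
    rw [show 2 * (1 / 100 * (t : ℝ)) ^ 2 / t = 2 * (1 / 100) ^ 2 * t by field_simp] at a1
    have a4 := exp_neg_le (2 * (1 / 100) ^ 2) (by positivity) 6 t ht0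
    rw [← hKb] at a4
    have s4 := mul_le_mul_of_nonneg_left (a1.trans a4) (mul_nonneg q0 hA0)
    have s5 := pw Kb hKb0
    have s6 := (mul_le_mul_of_nonneg_left hmix q0).trans (pw C₁ hC₁0)
    have s7 : Ka / L + 5 / L + 32 * (2 * c) ^ 6 * C₁ / L + 32 * (2 * c) ^ 6 * Kb / L
        ≤ (K + C₃) / L - K / L := by
      have d3 : 0 ≤ 32 * (2 * c) ^ 6 * C₂ / L := by positivity
      have d5 : 0 ≤ 5 / L := by positivity
      have d4 : (K + C₃) / L - K / L = Ka / L + 2 * (5 / L) + 32 * (2 * c) ^ 6 * C₂ / L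
          + 32 * (2 * c) ^ 6 * C₁ / L + 32 * (2 * c) ^ 6 * Kb / L := by rw [hC₃]; ring
      linarith
    have s8 := mul_le_mul_of_nonneg_left s7 Aμx
    rw [hR] at s3
    linarith
  intro x hx hL
  have := main ⌈Real.log x⌉₊ x hx hL (Nat.le_ceil _) 0 (fun _ => 1) (by simp)
    (fun _ => zero_le_one) (per_const 1)
  rw [avg_const, one_mul] at this
  refine this.trans (mul_le_mul_of_nonneg_right ?_ hx.le)
  have : 0 ≤ μ * (K / Real.log x) := by
    have : 0 ≤ Real.log x := by linarith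
    positivity
  have e : 2 * K * μ / L₁ = μ * (2 * K / L₁) := by ring
  linarith

end Pool.Agent.P.MP_2b866c_nt.Poly
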