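import Pool.Agent.P.MP_2b866c_nt.Poly.Final
import Pool.Agent.P.MP_2b866c_nt.Poly.Spread
import Pool.Agent.P.MP_2b866c_nt.Poly.Transport

/-!
The exact tail criterion with a polynomial threshold.
-/

set_option autoImplicit false

open Finset Filter Asymptotics

namespace Pool.Agent.P.MP_2b866c_nt.Poly

/-- Large heights, for all integers. -/
noncomputable def ph (A : ℝ) (N : ℕ) : ℝ :=
  if A * (N : ℝ) ^ (1 / 20 : ℝ) < (kk 0 N : ℝ) then (kk 0 N : ℝ) else 0

lemma ph_nonneg (A : ℝ) (N : ℕ) : 0 ≤ ph A N := by unfold ph; split_ifs <;> positivity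

lemma ph_zero (A : ℝ) {N : ℕ} (hN : 1 ≤ N) (h : ¬ Reach N) : ph A N = 0 := by
  have h1 : {t | T^[t] N < 2 ^ (0 + 1)} = ∅ := Set.eq_empty_of_forall_notMem fun t ht =>
    h ⟨t, by have := it_pos t hN; have : T^[t] N < 2 := ht; omega⟩
  have h2 : kk 0 N = 0 := by rw [kk, tau, h1, Nat.sInf_empty]; simp [J, bits]
  simp [ph, h2]

lemma ph_two {A : ℝ} (hA : 0 < A) {N : ℕ} (hN : 1 ≤ N) : ph A (2 * N) ≤ ph A N := by
  by_cases h : Reach (2 * N)
  swap
  · rw [ph_zero A (by omega) h]; exact ph_nonneg _ _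
  have h1 : 1 ≤ tau 0 (2 * N) := by
    by_contra hc
    have a1 := pt_lt h 0
    have a2 := h.pos
    rw [pt, show tau 0 (2 * N) = 0 by omega] at a1
    simp only [Function.iterate_zero, id] at a1
    omega
  have h2 : kk 0 (2 * N) = kk 0 N := by
    rw [kk_shift h h1, Function.iterate_one, show T (2 * N) = N by simp [T]]
    simp [J, bits]
  rw [ph, h2]
  split_ifs with h3
  · rw [ph, if_pos (lt_of_le_of_lt (by gcongr; omega) h3)]
  · exact ph_nonneg _ _

lemma sum_ph_split {A : ℝ} (hA : 0 < A) (n : ℕ) :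
    ∑ N ∈ Icc 1 n, ph A N ≤ tp A n + ∑ N ∈ Icc 1 (n / 2), ph A N := by
  rw [← sum_filter_add_sum_filter_not _ (fun m => Odd m)]
  refine add_le_add ?_ ?_
  · rw [tp, Nat.floor_natCast, ← filter_filter, sum_filter (s := filter _ _)]
    refine sum_le_sum fun m hm => ?_
    have ho := (mem_filter.1 hm).2
    by_cases h1 : m = 1
    · have a1 : kk 0 1 = 0 := by rw [kk, tau_zero (by norm_num)]; simp [J, bits]
      rw [ph, h1, a1]
      simp only [Nat.cast_zero, ite_self]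
      split_ifs <;> positivity
    · by_cases hf : FiniteHeight m
      · rw [ph, kk_eq ho (by have := ho.pos; omega) hf]
      · rw [ph_zero A ho.pos fun h => hf ((finite_iff ho).2 h)]
        split_ifs <;> positivity
  · have : (Icc 1 n).filter (fun m => ¬ Odd m) = (Icc 1 (n / 2)).image (fun N => 2 * N) := by
      ext m
      simp only [mem_filter, mem_Icc, mem_image, Nat.odd_iff]
      constructor
      · intro h; exact ⟨m / 2, by omega, by omega⟩
      · rintro ⟨N, h, rfl⟩; omega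
    rw [this, sum_image fun a _ b _ h => by simpa using h]
    exact sum_le_sum fun N hN => ph_two hA (mem_Icc.1 hN).1

lemma sum_ph_le {A : ℝ} (hA : 0 < A)
    (ht : tp A =o[atTop] fun x => x * Real.log x) {ε : ℝ} (hε : 0 < ε) :
    ∃ C : ℝ, 0 ≤ C ∧ ∀ y l : ℝ, 0 < y → 0 ≤ l → Real.log y ≤ l →
      ∑ N ∈ Icc 1 ⌊y⌋₊, ph A N ≤ (ε * l + C) * y := by
  obtain ⟨x₀, hx₀⟩ := eventually_atTop.1 (isLittleO_iff.1 ht (half_pos hε))
  have tp0 : ∀ x, 0 ≤ tp A x := fun x => sum_nonneg fun _ _ => Nat.cast_nonneg _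
  have h1 : ∀ n : ℕ, tp A n ≤ ε / 2 * (n * Real.log n) + tp A x₀ * n := by
    intro n
    have a0 : 0 ≤ (n : ℝ) * Real.log n := mul_nonneg (Nat.cast_nonneg _) (Real.log_natCast_nonneg n)
    have a1 := tp0 x₀
    rcases le_total x₀ n with h | h
    · have := hx₀ n h
      rw [Real.norm_eq_abs, Real.norm_eq_abs, abs_of_nonneg (tp0 _), abs_of_nonneg a0] at this
      exact le_add_of_le_of_nonneg this (by positivity)
    · rcases Nat.eq_zero_or_pos n with rfl | hn
      · simp [tp]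
      · have b1 : tp A n ≤ tp A x₀ := sum_le_sum_of_subset_of_nonneg
          (filter_subset_filter _ (Icc_subset_Icc_right (Nat.floor_le_floor h)))
          fun _ _ _ => Nat.cast_nonneg _
        have b2 : tp A x₀ ≤ tp A x₀ * n := le_mul_of_one_le_right a1 (by exact_mod_cast hn)
        exact le_add_of_nonneg_of_le (by positivity) (b1.trans b2)
  have h2 : ∀ n : ℕ, ∑ N ∈ Icc 1 n, ph A N ≤ ε * (n * Real.log n) + 2 * tp A x₀ * n := by
    intro n
    induction n using Nat.strong_induction_on with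
    | _ n ih =>
    rcases Nat.eq_zero_or_pos n with rfl | hn
    · simp
    have a1 := ih (n / 2) (by omega)
    have a2 : 2 * ((n / 2 : ℕ) : ℝ) ≤ n := by exact_mod_cast (by omega : 2 * (n / 2) ≤ n)
    have a3 : Real.log (n / 2 : ℕ) ≤ Real.log n := by
      rcases Nat.eq_zero_or_pos (n / 2) with h | h
      · rw [h]; simpa using Real.log_natCast_nonneg n
      · exact Real.log_le_log (by exact_mod_cast h) (by exact_mod_cast Nat.div_le_self n 2)
    have a4 : 2 * ((n / 2 : ℕ) : ℝ) * Real.log (n / 2 : ℕ) ≤ n * Real.log n :=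
      mul_le_mul a2 a3 (Real.log_natCast_nonneg _) (Nat.cast_nonneg _)
    have a5 := mul_le_mul_of_nonneg_left a4 hε.le
    have a6 := mul_le_mul_of_nonneg_left a2 (tp0 x₀)
    linarith [sum_ph_split hA n, h1 n]
  refine ⟨2 * tp A x₀, by have := tp0 x₀; positivity, fun y l hy hl0 hl => (h2 _).trans ?_⟩
  have a1 := Nat.floor_le hy.le
  have a2 : Real.log ⌊y⌋₊ ≤ l := by
    rcases Nat.eq_zero_or_pos ⌊y⌋₊ with h | h
    · rw [h]; simpa using hl0
    · exact (Real.log_le_log (by exact_mod_cast h) a1).trans hl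
  have a3 : (⌊y⌋₊ : ℝ) * Real.log ⌊y⌋₊ ≤ y * l :=
    mul_le_mul a1 a2 (Real.log_natCast_nonneg _) hy.le
  have a4 := mul_le_mul_of_nonneg_left a3 hε.le
  have a5 := mul_le_mul_of_nonneg_left a1 (tp0 x₀)
  linarith

/-- The target scale for heights of logarithm about `τ`. -/
noncomputable def Rr (τ : ℝ) : ℕ := ⌈1.0001 * τ / 0.034667⌉₊

open Classical in
/-- The points at the target scale with height in the window. -/
noncomputable def Bw (τ : ℝ) : Finset ℕ := (Ico (2 ^ Rr τ) (2 ^ (Rr τ + 1))).filter fun n =>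
  Real.exp τ / 2 ≤ (kk 0 n : ℝ) ∧ (kk 0 n : ℝ) ≤ 2 * Real.exp (1.0001 * τ)

lemma Rr_facts {τ : ℝ} (h : 10000 ≤ τ) : 1.0001 * τ ≤ 0.034667 * Rr τ ∧
    ((Rr τ : ℝ) + 1) * Real.log 2 ≤ 19.998 * τ := by
  have a1 : 1.0001 * τ / 0.034667 ≤ Rr τ := Nat.le_ceil _
  have a2 : (Rr τ : ℝ) < 1.0001 * τ / 0.034667 + 1 := Nat.ceil_lt_add_one (by positivity)
  have a3 := Real.log_two_lt_d9
  refine ⟨by rwa [div_le_iff₀' (by norm_num)] at a1, ?_⟩
  have a4 : 1.0001 * τ / 0.034667 ≤ 28.849 * τ := by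
    rw [div_le_iff₀ (by norm_num)]; linarith
  calc _ ≤ (28.849 * τ + 2) * 0.6931471808 :=
        mul_le_mul (by linarith) a3.le (Real.log_nonneg one_le_two) (by linarith)
    _ ≤ _ := by linarith

lemma below {A τ : ℝ} (hA : 0 < A) {n : ℕ} (hn : 1 ≤ n)
    (h : Real.log n ≤ 20 * (τ - Real.log (4 * A))) :
    A * (n : ℝ) ^ (1 / 20 : ℝ) < Real.exp τ / 2 := by
  have hn0 : (0 : ℝ) < n := by exact_mod_cast hn
  have a1 : 4 * A * (n : ℝ) ^ (1 / 20 : ℝ) ≤ Real.exp τ := by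
    rw [← Real.log_le_iff_le_exp (by positivity), Real.log_mul (by positivity) (by positivity),
      Real.log_rpow hn0]
    linarith
  linarith [Real.exp_pos τ]

lemma group {A : ℝ} (hA : 0 < A)
    (ht : tp A =o[atTop] fun x => x * Real.log x) {ε : ℝ} (hε : 0 < ε) :
    ∀ᶠ τ : ℝ in atTop, ∀ x : ℝ, 0 < x → 19.999 * τ ≤ Real.log x →
      ∑ N ∈ Icc 1 ⌊x⌋₊, Psi (Rr τ) (Bw τ) N ≤ ε * τ * x := by
  classical
  obtain ⟨K, hK, htr⟩ := transport 100000 (by norm_num)
  obtain ⟨C₁, hC₁, h1⟩ := sum_ph_le hA ht one_pos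
  obtain ⟨C₂, hC₂, h2⟩ := sum_ph_le hA ht (show 0 < ε / 42 by positivity)
  filter_upwards [eventually_ge_atTop 1000000, eventually_ge_atTop C₁,
    eventually_ge_atTop (100000 * |Real.log (4 * A)|),
    eventually_ge_atTop (2 * (C₂ + 12000 * K) / ε)] with τ t1 t2 t3 t4 x hx hL
  obtain ⟨r1, r2⟩ := Rr_facts (show 10000 ≤ τ by linarith)
  have b1 := le_abs_self (Real.log (4 * A))
  have b2 := neg_abs_le (Real.log (4 * A))
  have hz : Real.log ((2 ^ (Rr τ + 1) : ℕ) : ℝ) ≤ 19.998 * τ := by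
    push_cast; rw [Real.log_pow]; push_cast; exact r2
  have hR4 : 4 ≤ Rr τ := by
    have : (4 : ℝ) ≤ Rr τ := by linarith
    exact_mod_cast this
  have hB : ∑ n ∈ Bw τ, (kk 0 n : ℝ) ≤ 2 * (19.999 * τ + C₁) * 2 ^ Rr τ := by
    have c1 := h1 ((2 ^ (Rr τ + 1) : ℕ) : ℝ) (19.999 * τ) (by positivity) (by positivity)
      (by linarith)
    rw [Nat.floor_natCast] at c1
    refine le_trans (le_trans (sum_le_sum fun n hn => ?_) (sum_le_sum_of_subset_of_nonneg
      (fun n hn => ?_) fun _ _ _ => ph_nonneg A _)) (c1.trans (le_of_eq (by push_cast; ring)))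
    · obtain ⟨d1, d2, _⟩ := mem_filter.1 hn
      obtain ⟨d3, d4⟩ := mem_Ico.1 d1
      have d5 : 1 ≤ n := Nat.one_le_two_pow.trans d3
      rw [ph, if_pos ((below hA d5 (by linarith [log_le_of_lt d5 d4])).trans_le d2)]
    · obtain ⟨d3, d4⟩ := mem_Ico.1 (mem_filter.1 hn).1
      exact mem_Icc.2 ⟨Nat.one_le_two_pow.trans d3, d4.le⟩
  have hM : 2 * Real.exp (1.0001 * τ) ≤ Real.exp (19.999 * τ / 10) := by
    have c1 := mul_le_mul_of_nonneg_right (show (2 : ℝ) ≤ Real.exp 1 by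
      linarith [Real.add_one_le_exp 1]) (Real.exp_pos (1.0001 * τ)).le
    rw [← Real.exp_add] at c1
    exact c1.trans (Real.exp_le_exp.2 (by linarith))
  have key := htr (Psi (Rr τ) (Bw τ)) (2 ^ (Rr τ + 1)) (2 * Real.exp (1.0001 * τ))
    (3000 * (2 * (19.999 * τ + C₁))) (ε / 42 * (21 * τ) + C₂) (20 * (τ - Real.log (4 * A)))
    (19.999 * τ) (by linarith) (by linarith) (by positivity) (by positivity)
    hM Nat.one_le_two_pow (by linarith) (by linarith)
    (Psi_nonneg _ _) (fun Y => by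
      unfold Psi
      split_ifs with h
      · exact (mem_filter.1 h.2).2.2
      · positivity) (Psi_mono _ _) (Psi_spread hB hR4) (fun y t hy hl => by
      refine le_trans (sum_le_sum fun N hN => ?_) (h2 y (21 * τ) hy (by positivity) (by linarith))
      obtain ⟨d1, d2⟩ := mem_Icc.1 hN
      unfold Psi
      split_ifs with h
      · have d3 : (kk 0 (pt (Rr τ) (T^[t] N)) : ℝ) ≤ kk 0 N := by
          obtain ⟨u, hu⟩ := h.1.1
          exact_mod_cast (kk_pt_le h.1.1 _).trans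
            (kk_iter_le ⟨u + t, by rw [Function.iterate_add_apply, hu]⟩ t)
        have d4 : Real.log N ≤ Real.log y := Real.log_le_log (by exact_mod_cast d1)
          (le_trans (by exact_mod_cast d2) (Nat.floor_le hy.le))
        rw [ph, if_pos ((below hA d1 (d4.trans hl)).trans_le ((mem_filter.1 h.2).2.1.trans d3))]
        exact d3
      · exact ph_nonneg _ _) x hx hL
  simp only [Sm, one_mul] at key
  refine key.trans (mul_le_mul_of_nonneg_right ?_ hx.le)
  have c1 : K * (3000 * (2 * (19.999 * τ + C₁))) / (19.999 * τ) ≤ 12000 * K := by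
    rw [div_le_iff₀ (by positivity)]
    have := mul_le_mul_of_nonneg_left (show C₁ ≤ 19.999 * τ by linarith) hK
    linarith
  rw [div_le_iff₀ hε] at t4
  linarith

lemma sum_E_exp (j : ℕ) : ∑ n ∈ E j, Real.exp (0.034667 * Nat.log 2 n)
    ≤ 3 * (2 ^ j * (qq * Real.exp 0.034667 / 2) ^ j) := by
  have e : ∀ n ∈ E j, Real.exp (0.034667 * Nat.log 2 n) = Real.exp 0.034667 ^ j := by
    intro n hn
    obtain ⟨a1, a2⟩ := mem_Ico.1 (mem_filter.1 hn).1
    rw [Nat.log_eq_of_pow_le_of_lt_pow a1 a2, ← Real.exp_nat_mul, mul_comm]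
  rw [sum_congr rfl e, sum_const, nsmul_eq_mul]
  calc _ ≤ 3 * qq ^ j * Real.exp 0.034667 ^ j := by gcongr; exact card_E j
    _ = _ := by rw [div_pow, mul_pow]; field_simp

lemma th2_lt : qq * Real.exp 0.034667 / 2 < 1 := by
  have h : Real.exp 0.034667 < 1.0352755 := by
    have := Real.exp_bound' (x := 0.034667) (by norm_num) (by norm_num) (n := 4) (by norm_num)
    refine this.trans_lt ?_
    simp [sum_range_succ, Nat.factorial]
    norm_num
  unfold qq
  linarith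

lemma member {A τ : ℝ} (hA : 0 < A) {m j : ℕ} (hm : Reach m) (hτ : 10000 ≤ τ)
    (hτA : 100000 * |Real.log (4 * A)| ≤ τ)
    (h3 : Real.exp τ ≤ kk 0 (pt j m)) (h4 : (kk 0 (pt j m) : ℝ) ≤ Real.exp (1.0001 * τ))
    (hg : Good (Nat.log 2 m) j m) (hE : pt j m ∈ E j)
    (hj : Real.exp (0.034667 * Nat.log 2 (pt j m)) < kk 0 (pt j m)) :
    (kk 0 (pt j m) : ℝ) ≤ ph A m ∨
      (19.999 * τ ≤ Real.log m ∧ (kk 0 (pt j m) : ℝ) ≤ Psi (Rr τ) (Bw τ) m) := by
  classical
  obtain ⟨r1, r2⟩ := Rr_facts hτ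
  have hm0 : (0 : ℝ) < m := by exact_mod_cast hm.pos
  have l1 := Real.log_two_gt_d9
  have e0 := Real.exp_pos τ
  rcases le_total (Real.log m) (19.999 * τ) with a1 | a1
  · have b3 : (kk 0 (pt j m) : ℝ) ≤ kk 0 m := by exact_mod_cast kk_pt_le hm j
    have b4 := below (τ := τ) hA hm.pos (by linarith [le_abs_self (Real.log (4 * A))])
    left
    rwa [ph, if_pos (by linarith)]
  refine Or.inr ⟨a1, ?_⟩
  have a2 : 2 ^ Rr τ ≤ m := by
    have : ((2 : ℝ)) ^ Rr τ ≤ m := by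
      rw [← Real.log_le_log_iff (by positivity) hm0, Real.log_pow]; linarith
    exact_mod_cast this
  have a3 : Rr τ ≤ Nat.log 2 m := Nat.le_log_of_pow_le (by norm_num) a2
  have a4 : j ≤ Rr τ := by
    obtain ⟨b1, b2⟩ := mem_Ico.1 (mem_filter.1 hE).1
    rw [Nat.log_eq_of_pow_le_of_lt_pow b1 b2] at hj
    have b4 := Real.exp_lt_exp.1 (hj.trans_le h4)
    have : (j : ℝ) ≤ Rr τ := by linarith
    exact_mod_cast this
  have p1 : 2 ^ Nat.log 2 m ≤ m := Nat.pow_log_le_self 2 (by have := hm.pos; omega)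
  have p2 : m < 2 ^ (Nat.log 2 m + 1) := Nat.lt_pow_succ_log_self (by norm_num) m
  have a5 : (kk j (pt (Rr τ) m) : ℝ) ≤ (Rr τ : ℝ) ^ 2 := by
    exact_mod_cast (kk_le _ _).trans
      (good_tau (hm.pt _) (le_pt a2) (pt_lt hm _) a4 (hg.pt hm a3))
  have a0 : (0 : ℝ) ≤ Rr τ := Nat.cast_nonneg _
  have a6 : (Rr τ : ℝ) ≤ 30 * τ := by nlinarith
  have a7 : (Rr τ : ℝ) ^ 2 ≤ Real.exp (1.0001 * τ) := by
    have c1 := Real.pow_div_factorial_le_exp τ (by linarith) 3
    have c2 : Real.exp τ ≤ Real.exp (1.0001 * τ) := Real.exp_le_exp.2 (by linarith)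
    have c3 := mul_le_mul_of_nonneg_right hτ (sq_nonneg τ)
    norm_num [Nat.factorial] at c1
    calc _ ≤ (30 * τ) ^ 2 := by gcongr
      _ ≤ _ := by nlinarith [sq_nonneg τ]
  have a8 : (kk 0 (pt (Rr τ) m) : ℝ) = kk 0 (pt j m) + kk j (pt (Rr τ) m) := by
    rw [← pt_pt hm a4]
    exact_mod_cast kk_add (hm.pt _) (Nat.zero_le _)
  have a9 : (0 : ℝ) ≤ kk j (pt (Rr τ) m) := Nat.cast_nonneg _
  rw [Psi, if_pos ⟨(hg.mono a4).quick hm p1 p2 a3, mem_filter.2
    ⟨mem_Ico.2 ⟨le_pt a2, pt_lt hm _⟩, by linarith, by linarith⟩⟩]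
  linarith

theorem exact_kk {A : ℝ} (hA : 0 < A) (ht : tp A =o[atTop] fun x => x * Real.log x) {ε : ℝ}
    (hε : 0 < ε) : ∀ᶠ x : ℝ in atTop, ∀ S : Finset ℕ, (∀ N ∈ S, N ∈ Icc 1 ⌊x⌋₊ ∧ Reach N) →
      ∑ N ∈ S, |(kk 0 N : ℝ) - Real.log N / Real.log (4 / 3)| ≤ ε * (x * Real.log x) := by
  classical
  have hq := qq_pos
  obtain ⟨K, hK, hg⟩ := global (core_geo (θ := qq * Real.exp 0.034667 / 2) (by positivity) th2_lt)
    RR_scale
  obtain ⟨τ₀, hτ₀⟩ := eventually_atTop.1 ((group hA ht (show 0 < ε / 100000 by positivity)).and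
    ((eventually_ge_atTop 10000).and (eventually_ge_atTop (100000 * |Real.log (4 * A)|))))
  obtain ⟨C, hC, hph⟩ := sum_ph_le hA ht (show 0 < ε / 4 by positivity)
  obtain ⟨c₀, hc₀⟩ : ∃ c₀, c₀ = Real.exp (2 * |τ₀| + 1) := ⟨_, rfl⟩
  have hc0 : 0 < c₀ := hc₀ ▸ Real.exp_pos _
  filter_upwards [eventually_ge_atTop 16, RR_small (show 0 < ε / (16 * (K + 1)) by positivity),
    Real.tendsto_log_atTop.eventually_ge_atTop 1,
    Real.tendsto_log_atTop.eventually_ge_atTop (4 * (c₀ + C) / ε)] with x hx h2 h3 h4 S hS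
  have hx0 : 0 < x := by linarith
  obtain ⟨l, hl⟩ : ∃ l, l = Real.log x := ⟨_, rfl⟩
  rw [← hl] at h2 h3 h4 ⊢
  rw [div_le_iff₀ hε] at h4
  have hsub : S ⊆ Icc 1 ⌊x⌋₊ := fun N hN => (hS N hN).1
  have hle : ∀ N ∈ S, (N : ℝ) ≤ x := fun N hN =>
    le_trans (by exact_mod_cast (mem_Icc.1 (hsub hN)).2) (Nat.floor_le hx0.le)
  obtain ⟨n, n1, n2⟩ := exists_nat_pow_near h3 (show (1 : ℝ) < 1.0001 by norm_num)
  set F : ℕ → ℕ → ℝ := fun r m => if τ₀ ≤ 1.0001 ^ r ∧ 19.999 * 1.0001 ^ r ≤ l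
    then Psi (Rr (1.0001 ^ r)) (Bw (1.0001 ^ r)) m else 0 with hF
  have hF0 : ∀ r m, 0 ≤ F r m := fun r m => by
    simp only [hF]; split_ifs
    · exact Psi_nonneg _ _ _
    · exact le_rfl
  have z1 : ∀ m, 0 ≤ ∑ r ∈ range (n + 1), F r m := fun m => sum_nonneg fun r _ => hF0 r m
  have s3 := hg x hx 3 (fun m => c₀ + ph A m + ∑ r ∈ range (n + 1), F r m)
    (fun n => Real.exp (0.034667 * Nat.log 2 n)) (by norm_num)
    (fun m => add_nonneg (add_nonneg hc0.le (ph_nonneg _ _)) (z1 m))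
    (fun _ => (Real.exp_pos _).le) sum_E_exp S fun m hm => by
      refine ⟨(hS m hm).2, hle m hm, fun j _ j2 j3 => ?_⟩
      have z2 := z1 m
      have z3 := ph_nonneg A m
      have z4 := Real.exp_pos (0.034667 * Nat.log 2 (pt j m))
      rcases le_or_gt (kk 0 (pt j m) : ℝ) (Real.exp (0.034667 * Nat.log 2 (pt j m))) with j4 | j4
      · linarith
      rcases le_total (kk 0 (pt j m) : ℝ) c₀ with j5 | j5
      · linarith
      have k0 : (0 : ℝ) < kk 0 (pt j m) := by linarith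
      rw [hc₀, ← Real.le_log_iff_exp_le k0] at j5
      have k2 := le_abs_self τ₀
      have k3 := abs_nonneg τ₀
      obtain ⟨r, r1, r2⟩ := exists_nat_pow_near (show 1 ≤ Real.log (kk 0 (pt j m)) by linarith)
        (show (1 : ℝ) < 1.0001 by norm_num)
      rw [pow_succ] at r2
      have k4 : τ₀ ≤ 1.0001 ^ r := by linarith
      obtain ⟨_, k5, k6⟩ := hτ₀ _ k4
      rcases member hA (hS m hm).2 k5 k6 ((Real.le_log_iff_exp_le k0).1 r1)
        ((Real.log_le_iff_le_exp k0).1 (by linarith)) j2 j3 j4 with k8 | ⟨k7, k8⟩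
      · linarith
      have k7' : 19.999 * (1.0001 : ℝ) ^ r ≤ l := k7.trans
        (hl ▸ Real.log_le_log (by exact_mod_cast (hS m hm).2.pos) (hle m hm))
      have k9 : r < n + 1 := by
        by_contra hc
        have : (1.0001 : ℝ) ^ (n + 1) ≤ 1.0001 ^ r := pow_le_pow_right₀ (by norm_num) (by omega)
        linarith
      have := single_le_sum (fun r (_ : r ∈ range (n + 1)) => hF0 r m) (mem_range.2 k9)
      have e : F r m = Psi (Rr (1.0001 ^ r)) (Bw (1.0001 ^ r)) m := if_pos ⟨k4, k7'⟩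
      linarith
  rw [sum_add_distrib, sum_add_distrib, sum_const, nsmul_eq_mul, sum_comm] at s3
  have s1 : (S.card : ℝ) * c₀ ≤ x * c₀ := by
    have := card_le_card hsub
    rw [Nat.card_Icc, Nat.add_sub_cancel] at this
    exact mul_le_mul_of_nonneg_right (le_trans (by exact_mod_cast this) (Nat.floor_le hx0.le)) hc0.le
  have s2 := (sum_le_sum_of_subset_of_nonneg hsub fun N _ _ => ph_nonneg A N).trans
    (hph x l hx0 (by linarith) hl.ge)
  have s4 : K * x * (RR x * (1 + 3)) ≤ (K + 1) * x * (4 * (ε / (16 * (K + 1)) * l)) := by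
    have := (RR_facts hx).1
    exact mul_le_mul (by nlinarith) (by linarith) (by positivity) (by positivity)
  have s5 : (K + 1) * x * (4 * (ε / (16 * (K + 1)) * l)) = ε / 4 * (x * l) := by
    field_simp; ring
  have s6 : ∑ r ∈ range (n + 1), ∑ m ∈ S, F r m
      ≤ ∑ r ∈ range (n + 1), ε / 100000 * x * 1.0001 ^ r := by
    refine sum_le_sum fun r _ => ?_
    simp only [hF]
    split_ifs with h
    · refine (sum_le_sum_of_subset_of_nonneg hsub fun _ _ _ =>
        Psi_nonneg _ _ _).trans (((hτ₀ _ h.1).1 x hx0 (hl ▸ h.2)).trans (le_of_eq (by ring)))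
    · rw [sum_const_zero]; positivity
  rw [← mul_sum] at s6
  have s7 : ∑ r ∈ range (n + 1), (1.0001 : ℝ) ^ r ≤ 10001 * l := by
    have := geom_sum_mul (1.0001 : ℝ) (n + 1)
    rw [pow_succ] at this
    linarith
  have s8 := mul_le_mul_of_nonneg_left s7 (show 0 ≤ ε / 100000 * x by positivity)
  have s9 : 0 ≤ ε * (x * l) := by positivity
  have s10 := mul_le_mul_of_nonneg_left h4 hx0.le
  linarith

open Classical in
/-- The mean deviation over the odd integers of finite height. -/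
noncomputable def dev (x : ℝ) : ℝ := ∑ m ∈ (Icc 1 ⌊x⌋₊).filter
  (fun m : ℕ => Odd m ∧ FiniteHeight m), |(height m : ℝ) - 2 * Real.log m / Real.log (16 / 9)|

lemma dev_nonneg (x : ℝ) : 0 ≤ dev x := sum_nonneg fun _ _ => abs_nonneg _

theorem dev_of_tp {A : ℝ} (hA : 0 < A) (ht : tp A =o[atTop] fun x => x * Real.log x) :
    dev =o[atTop] fun x => x * Real.log x := by
  classical
  refine isLittleO_iff.2 fun ε hε => ?_
  filter_upwards [exact_kk hA ht (half_pos hε), eventually_ge_atTop 1,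
    Real.tendsto_log_atTop.eventually_ge_atTop (2 / ε)] with x h1 hx h2
  have hx0 : 0 ≤ x := by linarith
  have l0 := Real.log_nonneg hx
  rw [Real.norm_eq_abs, Real.norm_eq_abs, abs_of_nonneg (dev_nonneg x),
    abs_of_nonneg (by positivity), dev]
  set S := (Icc 1 ⌊x⌋₊).filter (fun m : ℕ => Odd m ∧ FiniteHeight m) with hS
  have a1 := h1 S fun m hm =>
    ⟨(mem_filter.1 hm).1, (finite_iff (mem_filter.1 hm).2.1).1 (mem_filter.1 hm).2.2⟩
  have a2 : (S.card : ℝ) ≤ x := by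
    have := card_le_card (show S ⊆ Icc 1 ⌊x⌋₊ from filter_subset _ _)
    rw [Nat.card_Icc, Nat.add_sub_cancel] at this
    exact le_trans (by exact_mod_cast this) (Nat.floor_le hx0)
  have a3 : ∑ m ∈ S, |(height m : ℝ) - 2 * Real.log m / Real.log (16 / 9)|
      ≤ ∑ m ∈ S, (1 + |(kk 0 m : ℝ) - Real.log m / Real.log (4 / 3)|) := by
    refine sum_le_sum fun m hm => ?_
    rw [log_16_9, mul_div_mul_left _ _ (two_ne_zero (α := ℝ))]
    exact (abs_sub_le _ (kk 0 m : ℝ) _).trans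
      (add_le_add (kk_close (mem_filter.1 hm).2.1 (mem_filter.1 hm).2.2) le_rfl)
  rw [sum_add_distrib, sum_const, nsmul_eq_mul, mul_one] at a3
  rw [div_le_iff₀ hε] at h2
  have a4 := mul_le_mul_of_nonneg_left h2 hx0
  linarith

theorem tl_of_dev (h : dev =o[atTop] fun x => x * Real.log x) :
    tl 2 =o[atTop] fun x => x * Real.log x := by
  classical
  refine (IsBigO.of_bound 2 ?_).trans_isLittleO h
  filter_upwards [eventually_gt_atTop 0, Real.tendsto_log_atTop.eventually_ge_atTop 8]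
    with x hx0 h3
  rw [Real.norm_eq_abs, Real.norm_eq_abs, abs_of_nonneg (dev_nonneg x), tl,
    abs_of_nonneg (sum_nonneg fun _ _ => by positivity), dev, mul_sum]
  refine le_trans (sum_le_sum fun m hm => ?_) (sum_le_sum_of_subset_of_nonneg (fun m hm => ?_)
    fun _ _ _ => by positivity)
  · obtain ⟨b3, _, b5⟩ := mem_filter.1 hm
    obtain ⟨c1, c2⟩ := mem_Icc.1 b3
    have c3 : Real.log m ≤ Real.log x := Real.log_le_log (by exact_mod_cast c1)
      (le_trans (by exact_mod_cast c2) (Nat.floor_le hx0.le))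
    have l3 := lam_ge
    rw [log_16_9, mul_div_mul_left _ _ (two_ne_zero (α := ℝ))]
    have c5 : Real.log m / Real.log (4 / 3) ≤ 4 * Real.log x := by
      rw [div_le_iff₀ (by linarith)]; nlinarith
    have c6 := le_abs_self ((height m : ℝ) - Real.log m / Real.log (4 / 3))
    nlinarith
  · obtain ⟨b3, b4, b5⟩ := mem_filter.1 hm
    refine mem_filter.2 ⟨b3, b4, ?_⟩
    have : 0 < height m := by exact_mod_cast (sq_nonneg _).trans_lt b5
    exact Nat.nonempty_of_pos_sInf this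

end Pool.Agent.P.MP_2b866c_nt.Poly
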