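import Pool.Agent.P.MP_2b866c_nt.Poly.Scale
import Pool.Agent.P.MP_2b866c_nt.Tail

/-!
Translation to the height; the polynomial criterion.
-/

set_option autoImplicit false

open Finset Filter Asymptotics

namespace Pool.Agent.P.MP_2b866c_nt.Poly

lemma kk_eq {m : ℕ} (hm : Odd m) (h1 : 1 < m) (hf : FiniteHeight m) : kk 0 m = height m := by
  obtain ⟨τ, t1, t2⟩ := first_of_finite hm h1 hf
  rw [kk, tau_eq (t := τ) (by rw [t1.1]; norm_num) fun i hi => ?_, t2]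
  have := t1.2 i hi
  have := it_pos i h1.le
  omega

lemma kk_close {m : ℕ} (hm : Odd m) (hf : FiniteHeight m) : |(height m : ℝ) - kk 0 m| ≤ 1 := by
  by_cases h1 : m = 1
  · subst h1
    have a1 : kk 0 1 = 0 := by rw [kk, tau_zero (by norm_num)]; simp [J, bits]
    have a2 : (height 1 : ℝ) ≤ 1 := by exact_mod_cast height_one
    rw [a1, Nat.cast_zero, sub_zero, Nat.abs_cast]; exact a2
  · rw [kk_eq hm (by have := hm.pos; omega) hf]; simp

lemma odd_orbit (t : ℕ) : ∀ m, Odd m → Odd (T^[t] m) → ∃ k, T^[t] m = Cmap^[k] m := by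
  induction t using Nat.strong_induction_on with
  | _ t ih =>
  intro m hm ht
  obtain ⟨ho, e, e1, e2, e3, _⟩ := C_step hm
  rcases Nat.lt_or_ge t e with h | h
  · rcases t with _ | t
    · exact ⟨0, rfl⟩
    · exfalso
      obtain ⟨d, rfl⟩ : ∃ d, e = d + 1 + (t + 1) := ⟨e - t - 2, by omega⟩
      rw [J_add, J_succ_odd d (Nat.odd_iff.1 ht), J_succ_odd t (Nat.odd_iff.1 hm)] at e3
      omega
  · obtain ⟨d, rfl⟩ : ∃ d, t = d + e := ⟨t - e, by omega⟩
    rw [Function.iterate_add_apply, e2] at ht ⊢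
    obtain ⟨k, hk⟩ := ih d (by omega) _ ho ht
    exact ⟨k + 1, hk⟩

lemma odd_iter {m : ℕ} (hm : Odd m) (k : ℕ) : Odd (Cmap^[k] m) := by
  induction k with
  | zero => exact hm
  | succ k ih => rw [Function.iterate_succ_apply']; exact (C_step ih).1

lemma E_odd {j n : ℕ} (hj : 1 ≤ j) (h : n ∈ E j) : Odd n ∧ 1 < n := by
  simp only [E, mem_filter, mem_Ico] at h
  have h1 := h.2 1 hj
  have h2 : 2 ^ 1 ≤ 2 ^ j := Nat.pow_le_pow_right (by norm_num) hj
  have h3 := h.1.2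
  rw [Function.iterate_one, T] at h1
  rw [pow_succ] at h3
  refine ⟨Nat.odd_iff.2 ?_, by omega⟩
  split_ifs at h1 <;> omega

lemma RR_small {ε : ℝ} (hε : 0 < ε) : ∀ᶠ x : ℝ in atTop, RR x ≤ ε * Real.log x := by
  have h := (isLittleO_iff.1 Real.isLittleO_log_id_atTop (show 0 < ε ^ 2 by positivity))
  filter_upwards [Real.tendsto_log_atTop.eventually h,
    Real.tendsto_log_atTop.eventually_ge_atTop 0] with x h1 h2
  simp only [id, Real.norm_eq_abs, abs_of_nonneg h2] at h1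
  refine Real.sqrt_le_iff.2 ⟨by positivity, ?_⟩
  have := mul_le_mul_of_nonneg_left ((le_abs_self _).trans h1) h2
  linarith

lemma tame {w ρ : ℕ → ℝ} {R : ℝ → ℝ} (hs : ScaleBound w ρ) (hR : ∀ x : ℝ, 16 ≤ x → 1 ≤ R x ∧
      ∀ L : ℕ, L ≤ 2 * Real.log x → ρ L ≤ 2 * R x) : ∃ K : ℝ, 0 ≤ K ∧ ∀ x : ℝ, 16 ≤ x →
    ∀ (G a : ℝ) (g : ℕ → ℝ), 0 ≤ G → 0 ≤ a → (∀ n, 0 ≤ g n) →
    (∀ j, ∑ n ∈ E j, g n ≤ G * (2 ^ j * w j)) → ∀ A : Finset ℕ,
    (∀ m ∈ A, m ∈ Icc 1 ⌊x⌋₊ ∧ Odd m ∧ FiniteHeight m ∧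
      ∀ k, (height (Cmap^[k] m) : ℝ) ≤ g (Cmap^[k] m) + a) →
    ∑ m ∈ A, |(height m : ℝ) - 2 * Real.log m / Real.log (16 / 9)|
      ≤ K * x * (a + R x * (1 + G)) := by
  obtain ⟨K, hK, h⟩ := global hs hR
  refine ⟨K + 1, by positivity, fun x hx G a g hG ha hg hgE A hA => ?_⟩
  have hx0 : 0 ≤ x := by linarith
  have a1 := h x hx G (fun _ => a) g hG (fun _ => ha) hg hgE A fun N hN => by
    obtain ⟨b1, b2, b3, b4⟩ := hA N hN
    have hR : Reach N := (finite_iff b2).1 b3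
    refine ⟨hR, le_trans (by exact_mod_cast (mem_Icc.1 b1).2) (Nat.floor_le hx0),
      fun j hj _ hE => ?_⟩
    obtain ⟨c1, c2⟩ := E_odd hj hE
    rw [kk_eq c1 c2 ((finite_iff c1).2 (hR.pt j))]
    obtain ⟨k, hk⟩ := odd_orbit _ N b2 c1
    rw [pt, hk]
    exact b4 k
  have a2 : (A.card : ℝ) ≤ x := by
    have := card_le_card (show A ⊆ Icc 1 ⌊x⌋₊ from fun m hm => (hA m hm).1)
    rw [Nat.card_Icc, Nat.add_sub_cancel] at this
    exact le_trans (by exact_mod_cast this) (Nat.floor_le hx0)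
  have a3 : ∑ m ∈ A, |(height m : ℝ) - 2 * Real.log m / Real.log (16 / 9)|
      ≤ ∑ m ∈ A, (1 + |(kk 0 m : ℝ) - Real.log m / Real.log (4 / 3)|) := by
    refine sum_le_sum fun m hm => ?_
    rw [log_16_9, mul_div_mul_left _ _ (two_ne_zero (α := ℝ))]
    exact (abs_sub_le _ (kk 0 m : ℝ) _).trans
      (add_le_add (kk_close (hA m hm).2.1 (hA m hm).2.2.1) le_rfl)
  rw [sum_add_distrib, sum_const, nsmul_eq_mul, mul_one] at a3
  rw [sum_const, nsmul_eq_mul] at a1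
  have a4 : 1 ≤ R x * (1 + G) := by nlinarith [(hR x hx).1]
  have a5 := mul_le_mul_of_nonneg_left a4 hx0
  have a6 := mul_le_mul_of_nonneg_right a2 ha
  have a7 : 0 ≤ K * x * a := by positivity
  linarith

lemma root_le (j : ℕ) {n : ℝ} (h0 : 0 ≤ n) (h : n ≤ 2 ^ j) :
    n ^ (1 / 20 : ℝ) ≤ 1.035265 ^ j := by
  have h1 : n ≤ ((1.035265 : ℝ) ^ j) ^ 20 := by
    rw [← pow_mul, mul_comm, pow_mul]
    exact h.trans (by gcongr; norm_num)
  have h2 := Real.rpow_le_rpow h0 h1 (show (0 : ℝ) ≤ 1 / 20 by norm_num)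
  have h3 := Real.pow_rpow_inv_natCast (x := (1.035265 : ℝ) ^ j) (n := 20) (by positivity)
    (by norm_num)
  rw [one_div] at h2 ⊢
  exact h2.trans (le_of_eq (by exact_mod_cast h3))

lemma E_le {j n : ℕ} (h : n ∈ E j) : n ∈ Icc 1 (2 ^ (j + 1)) := by
  simp only [E, mem_filter, mem_Ico] at h
  exact mem_Icc.2 ⟨Nat.one_le_two_pow.trans h.1.1, h.1.2.le⟩

/-- The ratio of the geometric saving. -/
noncomputable def th : ℝ := qq * 1.035265 / 2

lemma th_nonneg : 0 ≤ th := by unfold th qq; norm_num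
lemma th_lt : th < 1 := by unfold th qq; norm_num

lemma sum_E_root {A : ℝ} (hA : 0 ≤ A) (j : ℕ) :
    ∑ n ∈ E j, A * (n : ℝ) ^ (1 / 20 : ℝ) ≤ 4 * A * (2 ^ j * th ^ j) := by
  refine (sum_le_card_nsmul _ _ (A * 1.035265 ^ (j + 1)) fun n hn => ?_).trans ?_
  · exact mul_le_mul_of_nonneg_left (root_le _ (Nat.cast_nonneg _)
      (by exact_mod_cast (mem_Icc.1 (E_le hn)).2)) hA
  · rw [nsmul_eq_mul]
    have := qq_pos
    have := th_nonneg
    calc _ ≤ 3 * qq ^ j * (A * 1.035265 ^ (j + 1)) := by gcongr; exact card_E j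
      _ = 3 * 1.035265 * A * (2 ^ j * th ^ j) := by
          rw [th, div_pow, mul_pow]; field_simp; ring
      _ ≤ _ := by gcongr; norm_num

/-- Law of large numbers in the mean for the integers whose orbit has polynomially small
heights. -/
theorem poly_tame : ∃ K : ℝ, 0 ≤ K ∧ ∀ x : ℝ, 16 ≤ x → ∀ A a : ℝ, 0 ≤ A → 0 ≤ a →
    ∀ S : Finset ℕ, (∀ m ∈ S, m ∈ Icc 1 ⌊x⌋₊ ∧ Odd m ∧ FiniteHeight m ∧
      ∀ k, (height (Cmap^[k] m) : ℝ) ≤ A * (Cmap^[k] m : ℝ) ^ (1 / 20 : ℝ) + a) →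
    ∑ m ∈ S, |(height m : ℝ) - 2 * Real.log m / Real.log (16 / 9)|
      ≤ K * x * (a + (1 + A) * RR x) := by
  obtain ⟨K, hK, h⟩ := tame (core_geo th_nonneg th_lt) RR_scale
  refine ⟨4 * K, by positivity, fun x hx A a hA ha S hS => ?_⟩
  refine (h x hx (4 * A) a (fun n => A * (n : ℝ) ^ (1 / 20 : ℝ)) (by positivity) ha
    (fun n => by positivity) (sum_E_root hA) S hS).trans ?_
  have h1 := (RR_facts hx).1
  have h2 : 0 ≤ K * x := mul_nonneg hK (by linarith)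
  calc _ ≤ K * x * (4 * (a + (1 + A) * RR x)) :=
        mul_le_mul_of_nonneg_left (by linarith) h2
    _ = _ := by ring

/-- The contribution of the heights above `A m^(1/20)`. -/
noncomputable def tp (A x : ℝ) : ℝ := ∑ m ∈ (Icc 1 ⌊x⌋₊).filter
  (fun m : ℕ => Odd m ∧ A * (m : ℝ) ^ (1 / 20 : ℝ) < (height m : ℝ)), (height m : ℝ)

lemma tp_small {A : ℝ} (hA : 0 < A) (ht : tl 2 =o[atTop] fun x => x * Real.log x) :
    tp A =o[atTop] fun x => x * Real.log x := by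
  have b1 : (fun x : ℝ => (Real.log x ^ 2 / A) ^ 20 * Real.log x ^ 2) =o[atTop]
      fun x => x * Real.log x := by
    have e : (fun x : ℝ => (Real.log x ^ 2 / A) ^ 20 * Real.log x ^ 2)
        = fun x => (1 / A ^ 20 * Real.log x ^ 41) * Real.log x := by
      ext x; field_simp
    rw [e]
    exact ((Real.isLittleO_pow_log_id_atTop (n := 41)).const_mul_left _).mul_isBigO
      (isBigO_refl _ _)
  refine (isBigO_of_le _ fun x => ?_).trans_isLittleO (ht.add b1)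
  rw [Real.norm_eq_abs, Real.norm_eq_abs, tp, abs_of_nonneg (sum_nonneg fun _ _ => by positivity),
    ← sum_filter_add_sum_filter_not _ (fun m => Real.log x ^ 2 < (height m : ℝ))]
  refine le_trans (add_le_add ?_ ?_) (le_abs_self _)
  · refine sum_le_sum_of_subset_of_nonneg (fun m hm => ?_) fun _ _ _ => by positivity
    simp only [mem_filter] at hm ⊢
    exact ⟨hm.1.1, hm.1.2.1, hm.2⟩
  · refine (sum_le_card_nsmul _ _ (Real.log x ^ 2) fun m hm =>
      not_lt.1 (mem_filter.1 hm).2).trans ?_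
    rw [nsmul_eq_mul]
    gcongr
    have : ∀ s : Finset ℕ, s ⊆ Icc 1 ⌊(Real.log x ^ 2 / A) ^ 20⌋₊ →
        (s.card : ℝ) ≤ (Real.log x ^ 2 / A) ^ 20 := by
      intro s hs
      have := card_le_card hs
      rw [Nat.card_Icc, Nat.add_sub_cancel] at this
      exact le_trans (by exact_mod_cast this) (Nat.floor_le (by positivity))
    refine this _ fun m hm => ?_
    simp only [mem_filter, mem_Icc, not_lt] at hm
    refine mem_Icc.2 ⟨hm.1.1.1, Nat.le_floor ?_⟩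
    have c1 : (m : ℝ) ^ (1 / 20 : ℝ) ≤ Real.log x ^ 2 / A := by
      rw [le_div_iff₀' hA]; linarith [hm.1.2.2, hm.2]
    have c2 : ((m : ℝ) ^ (1 / 20 : ℝ)) ^ 20 = m := by
      rw [← Real.rpow_natCast, ← Real.rpow_mul (Nat.cast_nonneg _)]; norm_num
    rw [← c2]
    gcongr

lemma log_gap {x : ℝ} (hx0 : 0 < x) {m : ℕ} (hm : m ∈ Icc 1 ⌊x⌋₊) :
    0 ≤ Real.log x - Real.log m := by
  obtain ⟨b1, b2⟩ := mem_Icc.1 hm
  exact sub_nonneg.2 (Real.log_le_log (by exact_mod_cast b1)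
    (le_trans (by exact_mod_cast b2) (Nat.floor_le hx0.le)))

lemma sum_log_gap {x : ℝ} (hx0 : 0 < x) : ∑ m ∈ Icc 1 ⌊x⌋₊, (Real.log x - Real.log m) ≤ x := by
  have a1 : ∀ n : ℕ, ∑ m ∈ Icc 1 n, (Real.log x - Real.log m)
      = Real.log (x ^ n / n.factorial) := by
    intro n
    rw [Real.log_div (by positivity) (by positivity), Real.log_pow]
    induction n with
    | zero => simp
    | succ n ih =>
      rw [sum_Icc_succ_top (Nat.le_add_left 1 n), ih, Nat.factorial_succ, Nat.cast_mul,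
        Real.log_mul (by positivity) (by positivity)]
      push_cast; ring
  rw [a1, Real.log_le_iff_le_exp (by positivity)]
  exact Real.pow_div_factorial_le_exp x hx0.le _

lemma sum_log_odd {x : ℝ} (hx : 1 ≤ x) :
    |2 * ∑ m ∈ (Icc 1 ⌊x⌋₊).filter (fun m => Odd m), Real.log m - x * Real.log x| ≤ 3 * x := by
  have hx0 : 0 < x := by linarith
  have a0 : ∀ m ∈ Icc 1 ⌊x⌋₊, 0 ≤ Real.log x - Real.log m := fun m hm => log_gap hx0 hm
  have a2 := sum_log_gap hx0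
  have a3 := (sum_le_sum_of_subset_of_nonneg (filter_subset (fun m => Odd m) (Icc 1 ⌊x⌋₊))
    fun m hm _ => a0 m hm).trans a2
  have a4 := sum_nonneg fun m (hm : m ∈ (Icc 1 ⌊x⌋₊).filter (fun m => Odd m)) =>
    a0 m (mem_filter.1 hm).1
  rw [sum_sub_distrib, sum_const, nsmul_eq_mul] at a3 a4
  obtain ⟨c1, c2⟩ := abs_le.1 (count_odd_bounds hx0.le)
  have l0 := Real.log_nonneg hx
  have l1 := Real.log_le_sub_one_of_pos hx0
  have d1 := mul_le_mul_of_nonneg_right c1 l0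
  have d2 := mul_le_mul_of_nonneg_right c2 l0
  rw [abs_le]; constructor <;> linarith

lemma asymp {K : ℝ} {R : ℝ → ℝ} (hR : ∀ x : ℝ, 16 ≤ x → 1 ≤ R x)
    (h : ∀ x : ℝ, 16 ≤ x → ∑ m ∈ (Icc 1 ⌊x⌋₊).filter (fun m => Odd m),
      |(height m : ℝ) - 2 * Real.log m / Real.log (16 / 9)| ≤ K * x * R x) :
    (fun x : ℝ => (2 / x) * ∑ m ∈ (Icc 1 ⌊x⌋₊).filter (fun m => Odd m), (height m : ℝ)
      - 2 * Real.log x / Real.log (16 / 9)) =O[atTop] R := by
  refine IsBigO.of_bound (2 * K + 12) ?_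
  filter_upwards [eventually_ge_atTop 16] with x hx
  have hx0 : 0 < x := by linarith
  have a1 := (abs_sum_le_sum_abs _ _).trans (h x hx)
  have a2 := sum_log_odd (show 1 ≤ x by linarith)
  have a3 := hR x hx
  simp only [log_16_9, mul_div_mul_left _ _ (two_ne_zero (α := ℝ))] at a1 ⊢
  rw [sum_sub_distrib, ← sum_div] at a1
  have l3 := lam_ge
  set b := Real.log (4 / 3)
  have hb : 0 < b := by linarith
  set S := ∑ m ∈ (Icc 1 ⌊x⌋₊).filter (fun m => Odd m), (height m : ℝ)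
  set U := ∑ m ∈ (Icc 1 ⌊x⌋₊).filter (fun m => Odd m), Real.log m
  have a4 : |(2 * U - x * Real.log x) / b| ≤ 12 * x := by
    rw [abs_div, abs_of_pos hb, div_le_iff₀ hb]; nlinarith
  have e : 2 / x * S - Real.log x / b = (2 * (S - U / b) + (2 * U - x * Real.log x) / b) / x := by
    field_simp; ring
  rw [Real.norm_eq_abs, Real.norm_eq_abs, e, abs_div, abs_of_pos hx0, div_le_iff₀ hx0,
    abs_of_nonneg (show 0 ≤ R x by linarith)]
  have a5 := mul_le_mul_of_nonneg_left a3 hx0.le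
  rw [abs_le] at a1 a4 ⊢
  constructor <;> linarith [a1.1, a1.2, a4.1, a4.2]

end Pool.Agent.P.MP_2b866c_nt.Poly
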