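import Pool.Agent.P.MP_2b866c_nt.Poly.Exact
import Pool.Agent.P.MP_2b866c_nt.Exist

/-!
The average height over the odd integers of finite height.
-/

set_option autoImplicit false

open Finset Filter Asymptotics Topology

namespace Pool.Agent.P.MP_2b866c_nt.Poly

open Classical in
/-- The odd integers `m ≤ x` of finite height. -/
noncomputable def Fs (x : ℝ) : Finset ℕ :=
  (Icc 1 ⌊x⌋₊).filter fun m : ℕ => Odd m ∧ FiniteHeight m

lemma card_le_of_subset {x : ℝ} (hx : 0 ≤ x) {S : Finset ℕ} (h : S ⊆ Icc 1 ⌊x⌋₊) :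
    (S.card : ℝ) ≤ x := by
  have := card_le_card h
  rw [Nat.card_Icc, Nat.add_sub_cancel] at this
  exact le_trans (by exact_mod_cast this) (Nat.floor_le hx)

lemma pos_dens : ∃ c : ℝ, 0 < c ∧ ∀ᶠ x : ℝ in atTop, c * x ≤ (Fs x).card := by
  classical
  set f : ℕ → ℝ := fun N => if Reach N then 1 else 0 with hf
  have h1 : ∀ N, f (T N) = f N := fun N => by
    have : Reach (T N) ↔ Reach N := ⟨fun ⟨t, h⟩ => ⟨t + 1, h⟩, fun h => h.iter 1⟩
    simp only [hf, this]
  have h2 : TInv 0 f := ⟨fun N => by simp only [hf]; split_ifs <;> norm_num,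
    fun N => by simp only [hf]; split_ifs <;> norm_num, fun N _ => h1 N⟩
  obtain ⟨d, hd, h⟩ := density h2 (m := 1) (by norm_num) (if_pos ⟨2, by simp [T]⟩)
  have h3 := h.sub ((h.comp (tendsto_id.atTop_div_const (show (0 : ℝ) < 2 by norm_num))).div_const 2)
  refine ⟨d / 4, by positivity, ?_⟩
  filter_upwards [h3.eventually_const_le (show d / 4 < d - d / 2 by linarith),
    eventually_gt_atTop 0] with x h4 hx
  simp only [Function.comp, id, aS, Sm, one_mul] at h4
  rw [sum_odd_even (f := f) (fun N _ => by rw [← h1 (2 * N)]; simp [T]), Nat.floor_div_ofNat] at h4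
  have e : ∑ N ∈ (Icc 1 ⌊x⌋₊).filter (fun m => Odd m), f N = (Fs x).card := by
    rw [Fs, ← filter_filter, card_filter (s := filter _ _)]
    push_cast
    exact sum_congr rfl fun N hN => if_congr (finite_iff (mem_filter.1 hN).2).symm rfl rfl
  rw [e] at h4
  rw [← le_div_iff₀ hx]
  refine h4.trans (le_of_eq ?_)
  field_simp
  ring

lemma gap_Fs {x : ℝ} (hx : 0 < x) : 0 ≤ (Fs x).card * Real.log x - ∑ m ∈ Fs x, Real.log m ∧
    (Fs x).card * Real.log x - ∑ m ∈ Fs x, Real.log m ≤ x := by
  classical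
  have hs : Fs x ⊆ Icc 1 ⌊x⌋₊ := filter_subset _ _
  rw [← nsmul_eq_mul, ← sum_const, ← sum_sub_distrib]
  exact ⟨sum_nonneg fun m hm => log_gap hx (hs hm),
    (sum_le_sum_of_subset_of_nonneg hs fun m hm _ => log_gap hx hm).trans (sum_log_gap hx)⟩

theorem mean_iff : (fun x : ℝ => (∑ m ∈ Fs x, (height m : ℝ)) / (Fs x).card) ~[atTop]
    (fun x : ℝ => 2 * Real.log x / Real.log (16 / 9)) ↔
    dev =o[atTop] fun x => x * Real.log x := by
  classical
  obtain ⟨c, hc, hd⟩ := pos_dens
  have l3 := lam_ge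
  have l4 := lam_le
  have e0 : ∀ x, dev x = ∑ m ∈ Fs x, |(height m : ℝ) - Real.log m / Real.log (4 / 3)| := by
    intro x
    simp only [dev, Fs, log_16_9, mul_div_mul_left _ _ (two_ne_zero (α := ℝ))]
  simp only [log_16_9, mul_div_mul_left _ _ (two_ne_zero (α := ℝ))]
  obtain ⟨b, hb⟩ : ∃ b, b = (Real.log (4 / 3))⁻¹ := ⟨_, rfl⟩
  have b1 : 1 ≤ b := by rw [hb]; exact one_le_inv₀ (by linarith) |>.2 (by linarith)
  have b2 : b ≤ 4 := by rw [hb]; exact inv_le_of_inv_le₀ (by norm_num) (by linarith)
  simp only [div_eq_mul_inv _ (Real.log (4 / 3)), ← hb] at e0 ⊢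
  rw [IsEquivalent, isLittleO_iff, isLittleO_iff]
  constructor
  · intro h ε hε
    have hn := (normal_order (ε / 8) (by positivity)).comp (tendsto_nat_floor_atTop (α := ℝ))
    filter_upwards [h (show 0 < ε / 16 by positivity), hd, eventually_ge_atTop 1,
      hn.eventually_le_const (show 0 < ε / 32 by positivity),
      Real.tendsto_log_atTop.eventually_ge_atTop (16 / ε)] with x h1 h2 hx h3 h4
    have hx0 : 0 < x := by linarith
    have l0 := Real.log_nonneg hx
    have hF : (0 : ℝ) < (Fs x).card := lt_of_lt_of_le (by positivity) h2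
    have hs : Fs x ⊆ Icc 1 ⌊x⌋₊ := filter_subset _ _
    have hFx := card_le_of_subset hx0.le hs
    simp only [Function.comp, log_16_9, mul_div_mul_left _ _ (two_ne_zero (α := ℝ)),
      div_eq_mul_inv _ (Real.log (4 / 3)), ← hb] at h3
    rw [div_le_iff₀ (by exact_mod_cast Nat.floor_pos.2 hx)] at h3
    replace h3 := h3.trans (mul_le_mul_of_nonneg_left (Nat.floor_le hx0.le) (by positivity))
    simp only [Pi.sub_apply, Real.norm_eq_abs] at h1
    rw [abs_of_nonneg (show 0 ≤ Real.log x * b by positivity)] at h1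
    have h5 := (le_abs_self _).trans h1
    rw [sub_le_iff_le_add, div_le_iff₀ hF] at h5
    rw [Real.norm_eq_abs, Real.norm_eq_abs, abs_of_nonneg (dev_nonneg x),
      abs_of_nonneg (by positivity), e0]
    have a1 : ∑ m ∈ Fs x, |(height m : ℝ) - Real.log m * b| ≤ ∑ m ∈ Fs x,
        ((height m : ℝ) - Real.log m * b + ε / 4 * Real.log x
          + if ε / 8 * Real.log m < |(height m : ℝ) - Real.log m * b|
            then 8 * Real.log x else 0) := by
      refine sum_le_sum fun m hm => ?_
      have c1 := log_gap hx0 (hs hm)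
      have c2 := Real.log_natCast_nonneg m
      have c3 : 0 ≤ ε * Real.log x := by positivity
      split_ifs with c4
      · have c5 : Real.log m * b ≤ Real.log x * 4 := mul_le_mul (by linarith) b2 (by linarith) l0
        have c6 : (0 : ℝ) ≤ height m := Nat.cast_nonneg _
        rw [abs_le]; constructor <;> linarith
      · have c5 := mul_le_mul_of_nonneg_left (show Real.log m ≤ Real.log x by linarith) hε.le
        have c6 := neg_abs_le ((height m : ℝ) - Real.log m * b)
        linarith
    rw [sum_add_distrib, sum_add_distrib, sum_sub_distrib, ← sum_mul, ← sum_filter, sum_const,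
      sum_const, nsmul_eq_mul, nsmul_eq_mul] at a1
    have e1 : (Fs x).filter (fun m : ℕ => ε / 8 * Real.log m < |(height m : ℝ) - Real.log m * b|)
        = (Icc 1 ⌊x⌋₊).filter (fun m : ℕ => Odd m ∧ FiniteHeight m ∧
          ε / 8 * Real.log m < |(height m : ℝ) - Real.log m * b|) := by
      rw [Fs, filter_filter]; simp only [and_assoc]
    rw [e1] at a1
    have a2 := mul_le_mul_of_nonneg_right h3 (show 0 ≤ 8 * Real.log x by positivity)
    have a3 := mul_le_mul_of_nonneg_right hFx (show 0 ≤ ε / 4 * Real.log x by positivity)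
    have a4 := mul_le_mul (gap_Fs hx0).2 b2 (by linarith) hx0.le
    have a5 : ε / 16 * (Real.log x * b) * (Fs x).card ≤ ε / 16 * (Real.log x * 4) * x := by gcongr
    rw [div_le_iff₀ hε] at h4
    have a6 := mul_le_mul_of_nonneg_left h4 hx0.le
    linarith
  · intro h ε hε
    filter_upwards [h (show 0 < ε * c / 2 by positivity), hd, eventually_ge_atTop 1,
      Real.tendsto_log_atTop.eventually_ge_atTop (8 / (ε * c))] with x h1 h2 hx h4
    have hx0 : 0 < x := by linarith
    have l0 := Real.log_nonneg hx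
    have hF : (0 : ℝ) < (Fs x).card := lt_of_lt_of_le (by positivity) h2
    rw [Real.norm_eq_abs, Real.norm_eq_abs, abs_of_nonneg (dev_nonneg x),
      abs_of_nonneg (by positivity), e0] at h1
    have h5 := (abs_sum_le_sum_abs _ _).trans h1
    rw [sum_sub_distrib, ← sum_mul, abs_le] at h5
    simp only [Pi.sub_apply, Real.norm_eq_abs]
    rw [abs_of_nonneg (show 0 ≤ Real.log x * b by positivity), div_sub' hF.ne', abs_div,
      abs_of_pos hF, div_le_iff₀ hF]
    have a3 := mul_nonneg (gap_Fs hx0).1 (show 0 ≤ b by linarith)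
    have a4 := mul_le_mul (gap_Fs hx0).2 b2 (by linarith) hx0.le
    have a5 : ε * (Real.log x * 1) * (c * x) ≤ ε * (Real.log x * b) * (Fs x).card := by gcongr
    rw [div_le_iff₀ (by positivity)] at h4
    have a6 := mul_le_mul_of_nonneg_left h4 hx0.le
    rw [abs_le]; constructor <;> linarith [h5.1, h5.2]

end Pool.Agent.P.MP_2b866c_nt.Poly
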