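import Pool.Agent.P.MP_2b866c_nt.Dyn

/-!
First passages below powers of two, the multiplicative defect `lg`, and the counting lemma for
starting points with a prescribed first passage point.
-/

set_option autoImplicit false

open Finset

namespace Pool.Agent.P.MP_2b866c_nt.Poly

/-- The orbit of `N` under `T` visits `1`. -/
def Reach (N : ℕ) : Prop := ∃ τ, T^[τ] N = 1

/-- First time the orbit is below `2^(j+1)`. -/
noncomputable def tau (j N : ℕ) : ℕ := sInf {t | T^[t] N < 2 ^ (j + 1)}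

/-- First point of the orbit below `2^(j+1)`. -/
noncomputable def pt (j N : ℕ) : ℕ := T^[tau j N] N

/-- Number of odd steps before the first visit below `2^(j+1)`. -/
noncomputable def kk (j N : ℕ) : ℕ := J (tau j N) N

lemma T_pos {n : ℕ} (h : 1 ≤ n) : 1 ≤ T n := by
  unfold T; split_ifs <;> omega

lemma it_pos (t : ℕ) {n : ℕ} (h : 1 ≤ n) : 1 ≤ T^[t] n := by
  induction t with
  | zero => exact h
  | succ t ih => rw [Function.iterate_succ_apply']; exact T_pos ih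

lemma le_two_T (n : ℕ) : n ≤ 2 * T n := by
  unfold T; split_ifs <;> omega

lemma Reach.pos {N : ℕ} (h : Reach N) : 1 ≤ N := by
  obtain ⟨τ, h⟩ := h
  by_contra hc
  have : N = 0 := by omega
  subst this
  rw [Function.iterate_fixed (by simp [T])] at h
  omega

lemma Reach.iter {N : ℕ} (h : Reach N) (t : ℕ) : Reach (T^[t] N) := by
  induction t with
  | zero => exact h
  | succ t ih =>
    rw [Function.iterate_succ_apply']
    obtain ⟨τ, hτ⟩ := ih
    rcases τ with _ | τ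
    · simp only [Function.iterate_zero, id] at hτ
      exact ⟨1, by rw [hτ]; simp [T]⟩
    · exact ⟨τ, hτ⟩

lemma Reach.pt {N : ℕ} (h : Reach N) (j : ℕ) : Reach (pt j N) := h.iter _

lemma pt_lt {N : ℕ} (h : Reach N) (j : ℕ) : pt j N < 2 ^ (j + 1) := by
  obtain ⟨τ, hτ⟩ := h
  refine Nat.sInf_mem (s := {t | T^[t] N < 2 ^ (j + 1)}) ⟨τ, ?_⟩
  show T^[τ] N < _
  rw [hτ]
  exact Nat.one_lt_two_pow (by omega)

lemma le_of_lt_tau {j N i : ℕ} (h : i < tau j N) : 2 ^ (j + 1) ≤ T^[i] N :=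
  not_lt.1 (Nat.notMem_of_lt_sInf (s := {t | T^[t] N < 2 ^ (j + 1)}) h)

lemma tau_le {j N t : ℕ} (h : T^[t] N < 2 ^ (j + 1)) : tau j N ≤ t := Nat.sInf_le h

lemma tau_eq {j N t : ℕ} (h : T^[t] N < 2 ^ (j + 1)) (h' : ∀ i < t, 2 ^ (j + 1) ≤ T^[i] N) :
    tau j N = t := by
  refine le_antisymm (tau_le h) (not_lt.1 fun hc => ?_)
  have h1 : T^[tau j N] N < 2 ^ (j + 1) :=
    Nat.sInf_mem (s := {t | T^[t] N < 2 ^ (j + 1)}) ⟨t, h⟩
  exact absurd (h' _ hc) (not_le.2 h1)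

lemma tau_zero {j N : ℕ} (h : N < 2 ^ (j + 1)) : tau j N = 0 := tau_eq h (by simp)

lemma pt_self {j N : ℕ} (h : N < 2 ^ (j + 1)) : pt j N = N := by rw [pt, tau_zero h]; rfl

lemma le_pt {j N : ℕ} (h : 2 ^ j ≤ N) : 2 ^ j ≤ pt j N := by
  unfold pt
  rcases hc : tau j N with _ | t
  · exact h
  · have h1 : 2 ^ (j + 1) ≤ T^[t] N := le_of_lt_tau (by omega)
    have h2 := le_two_T (T^[t] N)
    rw [Function.iterate_succ_apply', pow_succ] at *
    omega

lemma tau_add {N j j' : ℕ} (h : Reach N) (hj : j ≤ j') :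
    tau j N = tau j (pt j' N) + tau j' N := by
  have hp : 2 ^ (j + 1) ≤ 2 ^ (j' + 1) := Nat.pow_le_pow_right (by norm_num) (by omega)
  refine tau_eq ?_ fun i hi => ?_
  · rw [Function.iterate_add_apply]
    exact pt_lt (h.pt j') j
  · by_cases hc : i < tau j' N
    · exact hp.trans (le_of_lt_tau hc)
    · obtain ⟨d, rfl⟩ : ∃ d, i = d + tau j' N := ⟨i - tau j' N, by omega⟩
      rw [Function.iterate_add_apply]
      exact le_of_lt_tau (N := pt j' N) (by omega)

lemma pt_pt {N j j' : ℕ} (h : Reach N) (hj : j ≤ j') : pt j (pt j' N) = pt j N := by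
  conv_rhs => rw [pt, tau_add h hj, Function.iterate_add_apply]
  rfl

lemma kk_add {N j j' : ℕ} (h : Reach N) (hj : j ≤ j') :
    kk j N = kk j (pt j' N) + kk j' N := by
  rw [kk, tau_add h hj, J_add]; rfl

lemma kk_le (j N : ℕ) : kk j N ≤ tau j N := J_le _ _

/-- The multiplicative defect of the first `t` steps. -/
noncomputable def lg (t N : ℕ) : ℝ :=
  t * Real.log 2 + Real.log (T^[t] N : ℕ) - J t N * Real.log 3 - Real.log N

lemma lg_add (s t N : ℕ) : lg (s + t) N = lg s (T^[t] N) + lg t N := by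
  simp only [lg, J_add, Function.iterate_add_apply]
  push_cast; ring

lemma lg_zero (N : ℕ) : lg 0 N = 0 := by simp [lg, J, bits]

lemma lg_one {b : ℕ} (hb : 1 ≤ b) : 0 ≤ lg 1 b ∧ lg 1 b ≤ 1 / b := by
  have hb0 : (0 : ℝ) < b := by exact_mod_cast hb
  rcases Nat.mod_two_eq_zero_or_one b with h | h
  · have h1 : J 1 b = 0 := by simp [J, bits, h]
    have h2 : (b : ℝ) = 2 * (T b : ℕ) := by
      have : b = 2 * T b := by unfold T; rw [if_pos h]; omega
      exact_mod_cast this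
    have h3 : (0 : ℝ) < (T b : ℕ) := by exact_mod_cast T_pos hb
    have h4 : Real.log b = Real.log 2 + Real.log (T b : ℕ) := by
      rw [← Real.log_mul (by norm_num) h3.ne', ← h2]
    have : lg 1 b = 0 := by
      simp only [lg, h1, Function.iterate_one, h4]; push_cast; ring
    rw [this]
    exact ⟨le_rfl, by positivity⟩
  · have h1 : J 1 b = 1 := by simp [J, bits, h]
    have h2 : 2 * ((T b : ℕ) : ℝ) = 3 * b + 1 := by
      have : 2 * T b = 3 * b + 1 := by unfold T; rw [if_neg (by omega)]; omega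
      exact_mod_cast this
    have h3 : (0 : ℝ) < (T b : ℕ) := by exact_mod_cast T_pos hb
    have h4 : lg 1 b = Real.log ((3 * b + 1) / (3 * b)) := by
      rw [Real.log_div (by positivity) (by positivity), ← h2, Real.log_mul (by norm_num) h3.ne',
        Real.log_mul (by norm_num) hb0.ne']
      simp only [lg, h1, Function.iterate_one]; push_cast; ring
    rw [h4]
    refine ⟨Real.log_nonneg (by rw [le_div_iff₀ (by positivity)]; linarith), ?_⟩
    refine (Real.log_le_sub_one_of_pos (by positivity)).trans ?_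
    rw [div_sub_one (by positivity), div_le_div_iff₀ (by positivity) hb0]
    nlinarith

lemma lg_nonneg (t : ℕ) {N : ℕ} (hN : 1 ≤ N) : 0 ≤ lg t N := by
  induction t with
  | zero => rw [lg_zero]
  | succ t ih =>
    rw [add_comm, lg_add]
    linarith [(lg_one (it_pos t hN)).1]

lemma lg_le (t : ℕ) {N z : ℕ} (hz : 1 ≤ z) (h : ∀ i < t, z ≤ T^[i] N) : lg t N ≤ t / z := by
  induction t with
  | zero => simp [lg_zero]
  | succ t ih =>
    rw [add_comm, lg_add]
    have h1 := h t (by omega)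
    have h2 := (lg_one (hz.trans h1)).2
    have h3 := ih fun i hi => h i (by omega)
    have h4 : (1 : ℝ) / (T^[t] N : ℕ) ≤ 1 / z := by
      have : (0 : ℝ) < z := by exact_mod_cast hz
      gcongr
    push_cast
    rw [add_div]
    linarith

/-- Slow points at scale `i`. -/
def E (i : ℕ) : Finset ℕ := (Ico (2 ^ i) (2 ^ (i + 1))).filter fun n => ∀ t ≤ i, 2 ^ i ≤ T^[t] n

lemma tau_le_of_notMem {i n : ℕ} (h1 : 2 ^ (i + 1) ≤ n) (h2 : n < 2 ^ (i + 1 + 1))
    (h : n ∉ E (i + 1)) : tau i n ≤ i + 1 := by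
  simp only [E, mem_filter, mem_Ico, not_and, not_forall, not_le] at h
  obtain ⟨t, ht, h3⟩ := h ⟨h1, h2⟩
  exact (tau_le h3).trans ht

/-- No slow first passage point at the scales `i` with `j < i ≤ L`. -/
def Good (L j N : ℕ) : Prop := ∀ i, j < i → i ≤ L → pt i N ∉ E i

lemma Good.mono {L j j' N : ℕ} (h : Good L j N) (hj : j ≤ j') : Good L j' N :=
  fun i h1 h2 => h i (by omega) h2

lemma Good.pt {L L' j N : ℕ} (h : Good L j N) (hN : Reach N) (hL : L' ≤ L) :
    Good L' j (pt L' N) := fun i h1 h2 => by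
  rw [pt_pt hN h2]; exact h i h1 (by omega)

lemma good_bounds {L N : ℕ} (hN : Reach N) (h1 : 2 ^ L ≤ N) (h2 : N < 2 ^ (L + 1)) (d : ℕ) :
    ∀ j, j + d = L → Good L j N →
      tau j N ≤ d * L ∧ lg (tau j N) N ≤ (j + 2) / 2 ^ j := by
  induction d with
  | zero =>
    intro j hj _
    obtain rfl : j = L := by omega
    rw [tau_zero h2, lg_zero]
    exact ⟨by simp, by positivity⟩
  | succ d ih =>
    intro j hj hg
    obtain ⟨a1, a2⟩ := ih (j + 1) (by omega) (hg.mono (by omega))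
    have b1 : 2 ^ (j + 1) ≤ pt (j + 1) N :=
      le_pt ((Nat.pow_le_pow_right (by norm_num) (by omega)).trans h1)
    have b2 := tau_le_of_notMem b1 (pt_lt hN _) (hg (j + 1) (by omega) (by omega))
    rw [tau_add hN (Nat.le_succ j)]
    refine ⟨by nlinarith, ?_⟩
    rw [lg_add]
    have b3 := lg_le (tau j (pt (j + 1) N)) (N := pt (j + 1) N) (z := 2 ^ (j + 1))
      Nat.one_le_two_pow fun i hi => le_of_lt_tau hi
    have b4 : (tau j (pt (j + 1) N) : ℝ) / ((2 ^ (j + 1) : ℕ) : ℝ) ≤ (j + 1) / 2 ^ (j + 1) := by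
      push_cast
      gcongr
      exact_mod_cast b2
    have b5 : ((j : ℝ) + 1) / 2 ^ (j + 1) + (((j + 1 : ℕ) : ℝ) + 2) / 2 ^ (j + 1)
        = (j + 2) / 2 ^ j := by
      push_cast; field_simp; ring
    unfold pt at b3 b4
    unfold pt
    linarith

lemma good_tau {L j N : ℕ} (hN : Reach N) (h1 : 2 ^ L ≤ N) (h2 : N < 2 ^ (L + 1)) (hj : j ≤ L)
    (hg : Good L j N) : tau j N ≤ L ^ 2 := by
  have := (good_bounds hN h1 h2 (L - j) j (by omega) hg).1
  calc _ ≤ _ := this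
    _ ≤ L * L := Nat.mul_le_mul_right _ (by omega)
    _ = _ := by ring

lemma good_lg {L j N : ℕ} (hN : Reach N) (h1 : 2 ^ L ≤ N) (h2 : N < 2 ^ (L + 1)) (hj : j ≤ L)
    (hg : Good L j N) : lg (tau j N) N ≤ (j + 2) / 2 ^ j :=
  (good_bounds hN h1 h2 (L - j) j (by omega) hg).2

lemma w_le (j : ℕ) : ((j : ℝ) + 2) / 2 ^ j ≤ 2 := by
  rw [div_le_iff₀ (by positivity)]
  have : j + 1 ≤ 2 ^ j := Nat.lt_two_pow_self
  have h : (j : ℝ) + 1 ≤ 2 ^ j := by exact_mod_cast this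
  have : (0 : ℝ) ≤ j := Nat.cast_nonneg _
  linarith

lemma card_le_of_interval (s : Finset ℕ) {a l : ℝ} (hl : 0 ≤ l)
    (h : ∀ N ∈ s, a ≤ N ∧ (N : ℝ) ≤ a + l) : (s.card : ℝ) ≤ l + 1 := by
  rcases s.eq_empty_or_nonempty with rfl | hs
  · simp; linarith
  have h1 := (h _ (s.min'_mem hs)).1
  have h2 := (h _ (s.max'_mem hs)).2
  have h3 : s ⊆ Icc (s.min' hs) (s.max' hs) := fun N hN =>
    mem_Icc.2 ⟨s.min'_le N hN, s.le_max' N hN⟩
  have h4 := card_le_card h3
  rw [Nat.card_Icc] at h4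
  have h5 : s.min' hs ≤ s.max' hs := s.min'_le _ (s.max'_mem hs)
  have h6 : s.card + s.min' hs ≤ s.max' hs + 1 := by omega
  have h7 : (s.card : ℝ) + s.min' hs ≤ s.max' hs + 1 := by exact_mod_cast h6
  linarith

/-- Counting starting points with given first passage point and number of odd steps. -/
lemma card_fiber {L j n : ℕ} (hj : j ≤ L) (A K : Finset ℕ)
    (hA : ∀ N ∈ A, Reach N ∧ 2 ^ L ≤ N ∧ N < 2 ^ (L + 1) ∧ Good L j N ∧ pt j N = n ∧ kk j N ∈ K) :
    (A.card : ℝ) ≤ K.card * (68 * (j + 2) * 2 ^ L / 2 ^ j) := by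
  rcases A.eq_empty_or_nonempty with rfl | ⟨N₀, hN₀⟩
  · simp; positivity
  have hn : 1 ≤ n := by
    obtain ⟨a, _, _, _, b, _⟩ := hA N₀ hN₀
    rw [← b]; exact (a.pt j).pos
  have hn0 : (0 : ℝ) < n := by exact_mod_cast hn
  set w : ℝ := (j + 2) / 2 ^ j with hw
  have hw0 : 0 ≤ w := by positivity
  have hw2 : w ≤ 2 := w_le j
  have key : ∀ N ∈ A, (N : ℝ) ≤ 2 ^ tau j N * n / 3 ^ kk j N ∧
      2 ^ tau j N * n / 3 ^ kk j N ≤ N * Real.exp w := by
    intro N hN
    obtain ⟨a1, a2, a3, a4, a5, _⟩ := hA N hN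
    have hN0 : (0 : ℝ) < N := by exact_mod_cast a1.pos
    have e : Real.log (2 ^ tau j N * n / 3 ^ kk j N) = Real.log N + lg (tau j N) N := by
      rw [Real.log_div (by positivity) (by positivity), Real.log_mul (by positivity) hn0.ne',
        Real.log_pow, Real.log_pow, lg, ← a5, pt, kk]
      ring
    have b1 := lg_nonneg (tau j N) a1.pos
    have b2 := good_lg a1 a2 a3 hj a4
    constructor
    · rw [← Real.log_le_log_iff hN0 (by positivity), e]; linarith
    · rw [← Real.log_le_log_iff (by positivity) (by positivity), e,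
        Real.log_mul hN0.ne' (Real.exp_pos _).ne', Real.log_exp]
      linarith
  have hexp : Real.exp w ≤ 8 := by
    have h1 : Real.exp w ≤ Real.exp 1 * Real.exp 1 := by
      rw [← Real.exp_add]; exact Real.exp_le_exp.2 (by linarith)
    have h2 := Real.exp_one_lt_d9
    have h3 := Real.exp_pos 1
    nlinarith
  have hY : ∀ N ∈ A, (2 : ℝ) ^ L ≤ 2 ^ tau j N * n / 3 ^ kk j N ∧
      (2 : ℝ) ^ tau j N * n / 3 ^ kk j N < 16 * 2 ^ L := by
    intro N hN
    obtain ⟨a1, a2, a3, _⟩ := hA N hN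
    obtain ⟨k1, k2⟩ := key N hN
    have c1 : (2 : ℝ) ^ L ≤ N := by exact_mod_cast a2
    have c2 : (N : ℝ) < 2 ^ (L + 1) := by exact_mod_cast a3
    have hN0 : (0 : ℝ) < N := by exact_mod_cast a1.pos
    rw [pow_succ] at c2
    exact ⟨c1.trans k1, by nlinarith⟩
  have hex : ∀ k : ℕ, ∃ t : ℕ, (2 : ℝ) ^ L ≤ 2 ^ t * n / 3 ^ k := by
    intro k
    refine ⟨L + 2 * k, ?_⟩
    rw [le_div_iff₀ (by positivity), pow_add, pow_mul, mul_assoc]
    have h1 : (3 : ℝ) ^ k ≤ (2 ^ 2) ^ k := by gcongr; norm_num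
    have h2 : (1 : ℝ) ≤ n := by exact_mod_cast hn
    gcongr
    nlinarith [pow_pos (show (0 : ℝ) < 2 ^ 2 by norm_num) k]
  classical
  set t₀ : ℕ → ℕ := fun k => Nat.find (hex k) with ht₀
  have hmaps : ∀ N ∈ A, (kk j N, tau j N - t₀ (kk j N)) ∈ K ×ˢ range 4 := by
    intro N hN
    refine mem_product.2 ⟨(hA N hN).2.2.2.2.2, mem_range.2 ?_⟩
    by_contra hc
    obtain ⟨d, hd⟩ : ∃ d, tau j N = t₀ (kk j N) + 4 + d := ⟨tau j N - t₀ (kk j N) - 4, by
      simp only at hc; omega⟩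
    have h1 := Nat.find_spec (hex (kk j N))
    have h2 := (hY N hN).2
    rw [hd, pow_add, pow_add] at h2
    have h3 : (1 : ℝ) ≤ 2 ^ d := one_le_pow₀ (by norm_num)
    have h4 : (2 : ℝ) ^ t₀ (kk j N) * 2 ^ 4 * 2 ^ d * n / 3 ^ kk j N
        = 16 * 2 ^ d * (2 ^ t₀ (kk j N) * n / 3 ^ kk j N) := by ring
    rw [h4] at h2
    have h5 : (0 : ℝ) < 2 ^ L := by positivity
    nlinarith
  have hfib : ∀ p ∈ K ×ˢ range 4,
      ((A.filter fun N => (kk j N, tau j N - t₀ (kk j N)) = p).card : ℝ) ≤ 17 * (w * 2 ^ L) := by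
    intro p _
    have h1 : (1 : ℝ) ≤ w * 2 ^ L := by
      rw [hw, div_mul_eq_mul_div, le_div_iff₀ (by positivity)]
      have : (2 : ℝ) ^ j ≤ 2 ^ L := pow_le_pow_right₀ (by norm_num) hj
      have : (0 : ℝ) ≤ j := Nat.cast_nonneg _
      have : (0 : ℝ) < 2 ^ j := by positivity
      nlinarith
    set Y : ℝ := 2 ^ (p.2 + t₀ p.1) * n / 3 ^ p.1 with hYdef
    refine (card_le_of_interval _ (a := Y - 16 * (w * 2 ^ L)) (l := 16 * (w * 2 ^ L))
      (by positivity) fun N hN => ?_).trans (by linarith)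
    obtain ⟨hNA, hp⟩ := mem_filter.1 hN
    have e1 : kk j N = p.1 := congrArg Prod.fst hp
    have e2 : tau j N - t₀ (kk j N) = p.2 := congrArg Prod.snd hp
    have e3 : t₀ (kk j N) ≤ tau j N := Nat.find_min' _ (hY N hNA).1
    have e4 : tau j N = p.2 + t₀ p.1 := by rw [← e1]; omega
    obtain ⟨k1, k2⟩ := key N hNA
    have k3 := (hY N hNA).2
    rw [e4, e1, ← hYdef] at k1 k2 k3
    refine ⟨?_, by linarith⟩
    have hY0 : 0 ≤ Y := by positivity
    have m1 : Y * Real.exp (-w) ≤ N := by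
      rw [Real.exp_neg, ← div_eq_mul_inv, div_le_iff₀ (Real.exp_pos _)]; exact k2
    have m2 : 1 - w ≤ Real.exp (-w) := by linarith [Real.add_one_le_exp (-w)]
    nlinarith
  rw [card_eq_sum_card_fiberwise hmaps]
  push_cast
  refine (sum_le_sum hfib).trans ?_
  rw [sum_const, card_product, card_range, nsmul_eq_mul, hw]
  push_cast
  apply le_of_eq
  ring

/-- Summed form of the counting lemma. -/
lemma sum_fiber {L j : ℕ} (hj : j ≤ L) (A K B : Finset ℕ) {φ : ℕ → ℝ} (hφ : ∀ n, 0 ≤ φ n)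
    (hA : ∀ N ∈ A, Reach N ∧ 2 ^ L ≤ N ∧ N < 2 ^ (L + 1) ∧ Good L j N ∧ pt j N ∈ B ∧
      kk j N ∈ K) :
    ∑ N ∈ A, φ (pt j N) ≤ K.card * (68 * (j + 2) * 2 ^ L / 2 ^ j) * ∑ n ∈ B, φ n := by
  rw [← sum_fiberwise_of_maps_to (g := pt j) (t := B) fun N hN => (hA N hN).2.2.2.2.1, mul_sum]
  refine sum_le_sum fun n _ => ?_
  rw [sum_congr rfl (g := fun _ => φ n) fun N hN => by rw [(mem_filter.1 hN).2], sum_const,
    nsmul_eq_mul]
  refine mul_le_mul_of_nonneg_right (card_fiber (n := n) hj _ K fun N hN => ?_) (hφ n)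
  obtain ⟨h1, h2⟩ := mem_filter.1 hN
  obtain ⟨a1, a2, a3, a4, _, a6⟩ := hA N h1
  exact ⟨a1, a2, a3, a4, h2, a6⟩

end Pool.Agent.P.MP_2b866c_nt.Poly
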