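import Pool.Agent.P.MP_2b866c_nt.Poly.Core

/-!
Choice of the parameters and summation over the dyadic scales.
-/

set_option autoImplicit false

open Finset Filter

namespace Pool.Agent.P.MP_2b866c_nt.Poly

lemma exists_phi {θ : ℝ} (hθ0 : 0 ≤ θ) (hθ1 : θ < 1) : ∃ φ M : ℝ, 0 ≤ φ ∧ φ < 1 ∧ 0 ≤ M ∧
    ∀ j : ℕ, (j + 2) * θ ^ j ≤ M * (φ ^ j * φ ^ j) := by
  set ψ := (1 + θ) / 2 with hψ
  have hψ0 : 0 < ψ := by positivity
  set r := θ / ψ with hr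
  have hr0 : 0 ≤ r := by positivity
  have hr1 : r < 1 := by rw [hr, div_lt_one hψ0, hψ]; linarith
  refine ⟨√ψ, r / (1 - r) ^ 2 + 2, Real.sqrt_nonneg _, ?_, by positivity, fun j => ?_⟩
  · rw [Real.sqrt_lt' one_pos, hψ]; linarith
  · rw [← mul_pow, Real.mul_self_sqrt hψ0.le]
    have h1 := le_hasSum (hasSum_coe_mul_geometric_of_norm_lt_one
      (show ‖r‖ < 1 by rwa [Real.norm_eq_abs, abs_of_nonneg hr0])) j fun i _ => by positivity
    have h2 : r ^ j ≤ 1 := pow_le_one₀ hr0 hr1.le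
    have e : θ ^ j = r ^ j * ψ ^ j := by rw [← mul_pow, hr, div_mul_cancel₀ _ hψ0.ne']
    rw [e, ← mul_assoc]
    gcongr
    linarith

/-- The shape of the estimate at a large dyadic scale. -/
def ScaleBound (w ρ : ℕ → ℝ) : Prop := ∃ K : ℝ, 0 ≤ K ∧ ∃ L₀ : ℕ, ∀ L, L₀ ≤ L →
    ∀ (G : ℝ) (a g : ℕ → ℝ), 0 ≤ G → (∀ n, 0 ≤ a n) → (∀ n, 0 ≤ g n) →
    (∀ j, ∑ n ∈ E j, g n ≤ G * (2 ^ j * w j)) → ∀ A : Finset ℕ,
    (∀ N ∈ A, Reach N ∧ 2 ^ L ≤ N ∧ N < 2 ^ (L + 1) ∧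
      ∀ j, 1 ≤ j → Good L j N → pt j N ∈ E j → (kk 0 (pt j N) : ℝ) ≤ g (pt j N) + a N) →
    ∑ N ∈ A, |(kk 0 N : ℝ) - Real.log N / Real.log (4 / 3)|
      ≤ ∑ N ∈ A, a N + K * 2 ^ L * (ρ L * (1 + G))

lemma core_geo {θ : ℝ} (hθ0 : 0 ≤ θ) (hθ1 : θ < 1) :
    ScaleBound (fun j => θ ^ j) fun L => √(L * Real.log L) := by
  obtain ⟨φ, M, hφ0, hφ1, hM0, hM⟩ := exists_phi hθ0 hθ1
  obtain ⟨c, hc⟩ := exists_pow_lt_of_lt_one (show (0 : ℝ) < 1 / 8 by norm_num) hφ1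
  obtain ⟨C₁, hC₁⟩ : ∃ C₁ : ℕ, C₁ = 80000 * (2 * c + 7) + 31 := ⟨_, rfl⟩
  set β : ℝ := √(2 * (2 * c + 7)) with hβ
  have hβ0 : 0 ≤ β := Real.sqrt_nonneg _
  set C₂ : ℝ := 4 * (4 + 30 * β) + C₁ ^ 2 with hC₂
  have hC₂0 : 0 ≤ C₂ := by positivity
  have hφ2 : 0 < 1 - φ := by linarith
  set W : ℝ := M * (1 / (1 - φ)) with hW
  have hW0 : 0 ≤ W := by positivity
  set C₃ : ℝ := 68 * W * (2 * C₂ + 10) with hC₃
  have hC₃0 : 0 ≤ C₃ := by positivity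
  refine ⟨C₂ + C₃ + 30000, by positivity, C₁ ^ 4, fun L hL G a g hG ha hg hgE A hA => ?_⟩
  have hC31 : 31 ≤ C₁ := by omega
  have hL3 : 3 ≤ L := le_trans (le_trans (by norm_num) (Nat.pow_le_pow_left hC31 4)) hL
  have hL3' : (3 : ℝ) ≤ L := by exact_mod_cast hL3
  have hL0 : (0 : ℝ) < L := by linarith
  have hl1 : 1 ≤ Real.log L := one_lt_log_three.le.trans (Real.log_le_log (by norm_num) hL3')
  set y := √(√(L : ℝ)) with hy
  have hy0 : 0 ≤ y := Real.sqrt_nonneg _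
  have hy2 : y * y = √L := Real.mul_self_sqrt (Real.sqrt_nonneg _)
  have hy4 : √(L : ℝ) * √L = L := Real.mul_self_sqrt hL0.le
  have hyC : (C₁ : ℝ) ≤ y := by
    refine Real.le_sqrt_of_sq_le (Real.le_sqrt_of_sq_le ?_)
    rw [← pow_mul]; exact_mod_cast hL
  have hC31' : (31 : ℝ) ≤ C₁ := by exact_mod_cast hC31
  have hlog : Real.log L ≤ 4 * y := by
    have e : Real.log L = 4 * Real.log y := by
      rw [hy, Real.log_sqrt (Real.sqrt_nonneg _), Real.log_sqrt hL0.le]; ring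
    linarith [Real.log_le_sub_one_of_pos (show 0 < y by linarith)]
  set S := √(L * Real.log L) with hS
  have hS' : S = √L * √(Real.log L) := Real.sqrt_mul hL0.le _
  have hs1 : 1 ≤ √(Real.log L) := Real.one_le_sqrt.2 hl1
  have hs2 : 1 ≤ √(L : ℝ) := Real.one_le_sqrt.2 (by linarith)
  have hS1 : √L ≤ S := by rw [hS']; nlinarith
  set κ := β * √(Real.log L) with hκ
  have hκ0 : 0 ≤ κ := by positivity
  have hκ2 : κ ^ 2 = 2 * (2 * c + 7) * Real.log L := by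
    rw [hκ, mul_pow, hβ, Real.sq_sqrt (by positivity), Real.sq_sqrt (by linarith)]
  obtain ⟨js, hjs⟩ : ∃ js : ℕ, js = ⌈10000 * κ ^ 2⌉₊ + 30 := ⟨_, rfl⟩
  have j1 : 10000 * κ ^ 2 ≤ js := by
    rw [hjs]; push_cast; linarith [Nat.le_ceil (10000 * κ ^ 2)]
  have j2 : (js : ℝ) ≤ C₁ * y := by
    have b1 := Nat.ceil_lt_add_one (show 0 ≤ 10000 * κ ^ 2 by positivity)
    have b2 : κ ^ 2 ≤ 2 * (2 * c + 7) * (4 * y) := by rw [hκ2]; gcongr
    rw [hjs, hC₁]; push_cast; nlinarith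
  have j3 : (js : ℝ) ≤ √L := by nlinarith
  have j4 : js ≤ L := by
    have : (js : ℝ) ≤ L := by nlinarith
    exact_mod_cast this
  have j5 : (js : ℝ) ^ 2 ≤ C₁ ^ 2 * S := by
    calc _ ≤ (C₁ * y) ^ 2 := by gcongr
      _ = C₁ ^ 2 * √L := by rw [← hy2]; ring
      _ ≤ _ := by gcongr
  have hom : om κ js L ≤ C₂ * S := by
    have e : κ * √L = β * S := by rw [hκ, hS']; ring
    rw [om, e, hC₂]; linarith
  set P : ℕ := 2 ^ (Nat.log 2 L + 1) with hP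
  have P1 : (L : ℝ) ≤ P := by exact_mod_cast (Nat.lt_pow_succ_log_self (by norm_num) L).le
  have P2 : (P : ℝ) ≤ L ^ 2 := by
    have : P ≤ 2 * L := by
      rw [hP, pow_succ, mul_comm]
      exact Nat.mul_le_mul_left _ (Nat.pow_log_le_self 2 (by omega))
    have : (P : ℝ) ≤ 2 * L := by exact_mod_cast this
    nlinarith
  have q1 : ((L : ℝ) ^ 2 + 1) * φ ^ (c * (Nat.log 2 L + 1)) ≤ 1 := by
    have b1 : φ ^ (c * (Nat.log 2 L + 1)) ≤ 1 / L ^ 3 := by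
      calc _ = (φ ^ c) ^ (Nat.log 2 L + 1) := pow_mul _ _ _
        _ ≤ (1 / 8) ^ (Nat.log 2 L + 1) := by gcongr
        _ = 1 / (P : ℝ) ^ 3 := by
            rw [hP]; push_cast
            rw [← pow_mul, mul_comm, pow_mul, div_pow, one_pow]; norm_num
        _ ≤ _ := by gcongr
    calc _ ≤ ((L : ℝ) ^ 2 + 1) * (1 / L ^ 3) := by gcongr
      _ ≤ 1 := by rw [mul_one_div, div_le_one (by positivity)]; nlinarith
  have q2 : (2 : ℝ) ^ (c * (Nat.log 2 L + 1)) ≤ L ^ (2 * c) := by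
    calc _ = (P : ℝ) ^ c := by rw [hP]; push_cast; rw [← pow_mul, mul_comm]
      _ ≤ (L ^ 2) ^ c := by gcongr
      _ = _ := by rw [← pow_mul]
  set u : ℝ := 4352 / (L ^ (2 * c) * L ^ 2) with hu
  have q3 : 136 * ((L : ℝ) + 2) ^ 5 * Real.exp (-(κ ^ 2 / 2)) ≤ u := by
    have e : Real.exp (-(κ ^ 2 / 2)) = 1 / (L ^ (2 * c) * L ^ 2 * L ^ 5) := by
      rw [← pow_add, ← pow_add, one_div, ← Real.exp_log (show (0 : ℝ) < L ^ (2 * c + 2 + 5) by
        positivity), ← Real.exp_neg, Real.log_pow, hκ2]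
      congr 1; push_cast; ring
    calc _ ≤ 136 * (2 * (L : ℝ)) ^ 5 * Real.exp (-(κ ^ 2 / 2)) := by gcongr; linarith
      _ = u := by rw [e, hu]; field_simp; norm_num
  have hL2c : (1 : ℝ) ≤ L ^ (2 * c) := one_le_pow₀ (by linarith)
  have q4 : u * (L ^ 2 + 4 * (L + 1)) ≤ 17408 := by
    rw [hu, div_mul_eq_mul_div, div_le_iff₀ (by positivity)]
    have : (L : ℝ) ^ 2 + 4 * (L + 1) ≤ 4 * L ^ 2 := by nlinarith
    have : (L : ℝ) ^ 2 ≤ L ^ (2 * c) * L ^ 2 := le_mul_of_one_le_left (by positivity) hL2c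
    linarith
  have q5 : u * 2 ^ (c * (Nat.log 2 L + 1)) ≤ 4352 := by
    rw [hu, div_mul_eq_mul_div, div_le_iff₀ (by positivity)]
    have : (L : ℝ) ^ (2 * c) ≤ L ^ (2 * c) * L ^ 2 :=
      le_mul_of_one_le_right (by positivity) (one_le_pow₀ (by linarith))
    linarith
  have s4 : ∑ j ∈ range (L + 1), M * φ ^ j ≤ W := by
    rw [← mul_sum, hW]
    gcongr
    rw [le_div_iff₀ hφ2, geom_sum_mul_neg]
    linarith [pow_nonneg hφ0 (L + 1)]
  have w1 : ∑ j ∈ range (L + 1), ((j : ℝ) + 2) * θ ^ j ≤ W := by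
    refine le_trans (sum_le_sum fun j _ => (hM j).trans ?_) s4
    gcongr
    exact mul_le_of_le_one_right (by positivity) (pow_le_one₀ hφ0 hφ1.le)
  have w2 : ((L : ℝ) ^ 2 + 1) * ∑ j ∈ (range (L + 1)).filter
      (fun j => ¬ j < c * (Nat.log 2 L + 1)), ((j : ℝ) + 2) * θ ^ j ≤ W := by
    rw [mul_sum]
    refine le_trans (le_trans (sum_le_sum fun j hj => ?_) (sum_le_sum_of_subset_of_nonneg
      (filter_subset _ _) fun _ _ _ => by positivity)) s4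
    have b1 : φ ^ j ≤ φ ^ (c * (Nat.log 2 L + 1)) :=
      pow_le_pow_of_le_one hφ0 hφ1.le (not_lt.1 (mem_filter.1 hj).2)
    have b2 : ((L : ℝ) ^ 2 + 1) * φ ^ j ≤ 1 := le_trans (by gcongr) q1
    calc _ ≤ ((L : ℝ) ^ 2 + 1) * (M * (φ ^ j * φ ^ j)) :=
          mul_le_mul_of_nonneg_left (hM j) (by positivity)
      _ = M * φ ^ j * (((L : ℝ) ^ 2 + 1) * φ ^ j) := by ring
      _ ≤ _ := mul_le_of_le_one_right (by positivity) b2
  refine (core_abs hκ0 (by omega) j1 j4 (fun j => pow_nonneg hθ0 j)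
    (fun j => pow_le_one₀ hθ0 hθ1.le) w1 w2 hG ha q3 hg hgE A hA).trans ?_
  rw [mul_comm _ ((2 : ℝ) ^ L), mul_assoc ((2 : ℝ) ^ L)]
  refine add_le_add le_rfl (mul_le_mul_of_nonneg_left ?_ (show (0 : ℝ) ≤ 2 ^ L by positivity))
  have hS0 : 1 ≤ S := hs2.trans hS1
  have q6 : 68 * W * (2 * om κ js L + 9) + 68 * W ≤ C₃ * S := by
    have : 68 * W * (2 * om κ js L + 10) ≤ 68 * W * ((2 * C₂ + 10) * S) := by
      gcongr; linarith
    rw [hC₃]; linarith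
  have q7 : G * (68 * W * (2 * om κ js L + 9) + 68 * W + u * 2 ^ (c * (Nat.log 2 L + 1)))
      ≤ G * (C₃ * S + 4352 * S) :=
    mul_le_mul_of_nonneg_left (by linarith) hG
  have r3 : 0 ≤ C₃ * S := by positivity
  have r4 : 0 ≤ C₂ * (S * G) := by positivity
  have r5 : 0 ≤ S * G := by positivity
  show _ ≤ _ * (S * (1 + G))
  linarith

lemma log_facts {x : ℝ} (hx : 16 ≤ x) : 2 ≤ Real.log x ∧ 1 ≤ Real.log (Real.log x) := by
  have l1 := Real.log_two_gt_d9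
  have hl : 4 * Real.log 2 ≤ Real.log x := by
    have := Real.log_le_log (by norm_num) hx
    rw [show (16 : ℝ) = 2 ^ 4 by norm_num, Real.log_pow] at this
    exact_mod_cast this
  refine ⟨by linarith, ?_⟩
  rw [Real.le_log_iff_exp_le (by linarith)]
  linarith [Real.exp_one_lt_d9]

lemma global {w ρ : ℕ → ℝ} {R' : ℝ → ℝ} (hs : ScaleBound w ρ) (hR' : ∀ x : ℝ, 16 ≤ x → 1 ≤ R' x ∧
      ∀ L : ℕ, L ≤ 2 * Real.log x → ρ L ≤ 2 * R' x) : ∃ K : ℝ, 0 ≤ K ∧ ∀ x : ℝ, 16 ≤ x →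
    ∀ (G : ℝ) (a g : ℕ → ℝ), 0 ≤ G → (∀ n, 0 ≤ a n) → (∀ n, 0 ≤ g n) →
    (∀ j, ∑ n ∈ E j, g n ≤ G * (2 ^ j * w j)) → ∀ A : Finset ℕ,
    (∀ N ∈ A, Reach N ∧ (N : ℝ) ≤ x ∧ ∀ j, 1 ≤ j → Good (Nat.log 2 N) j N →
      pt j N ∈ E j → (kk 0 (pt j N) : ℝ) ≤ g (pt j N) + a N) →
    ∑ N ∈ A, |(kk 0 N : ℝ) - Real.log N / Real.log (4 / 3)|
      ≤ ∑ N ∈ A, a N + K * x * (R' x * (1 + G)) := by
  obtain ⟨K, hK, L₀, hc⟩ := hs
  set f : ℕ → ℝ := fun N => |(kk 0 N : ℝ) - Real.log N / Real.log (4 / 3)| with hf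
  have hf0 : ∀ N, 0 ≤ f N := fun N => abs_nonneg _
  set C₀ := ∑ N ∈ range (2 ^ L₀), f N with hC₀
  have hC₀0 : 0 ≤ C₀ := sum_nonneg fun N _ => hf0 N
  refine ⟨C₀ + 4 * K, by positivity, fun x hx G a g hG ha hg hgE A hA => ?_⟩
  have hx0 : 0 < x := by linarith
  have l1 := Real.log_two_gt_d9
  obtain ⟨hR1, hρ⟩ := hR' x hx
  set R := R' x with hR
  set Λ := Nat.log 2 ⌊x⌋₊ with hΛ
  have hΛ1 : (2 : ℝ) ^ Λ ≤ x := by
    have : 2 ^ Λ ≤ ⌊x⌋₊ := Nat.pow_log_le_self 2 (by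
      have := Nat.le_floor (show ((16 : ℕ) : ℝ) ≤ x by exact_mod_cast hx); omega)
    exact le_trans (by exact_mod_cast this) (Nat.floor_le hx0.le)
  have hΛ2 : (Λ : ℝ) ≤ 2 * Real.log x := by
    have := Real.log_le_log (by positivity) hΛ1
    rw [Real.log_pow] at this
    have : (0 : ℝ) ≤ Λ := Nat.cast_nonneg _
    nlinarith
  set Q := R * (1 + G) with hQ
  have hQ1 : 1 ≤ Q := by rw [hQ]; nlinarith
  rw [← sum_filter_add_sum_filter_not A (fun N => N < 2 ^ L₀) f]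
  have s1 : ∑ N ∈ A.filter (fun N => N < 2 ^ L₀), f N ≤ C₀ * x * Q := by
    refine (sum_le_sum_of_subset_of_nonneg (t := range (2 ^ L₀))
      (fun N hN => mem_range.2 (mem_filter.1 hN).2) fun N _ _ => hf0 N).trans ?_
    rw [mul_assoc]
    exact le_mul_of_one_le_right hC₀0 (by nlinarith)
  have s2 : ∑ N ∈ A.filter (fun N => ¬ N < 2 ^ L₀), f N
      ≤ ∑ N ∈ A.filter (fun N => ¬ N < 2 ^ L₀), a N
        + ∑ L ∈ range (Λ + 1), 2 * K * Q * 2 ^ L := by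
    have hm : ∀ N ∈ A.filter (fun N => ¬ N < 2 ^ L₀), Nat.log 2 N ∈ range (Λ + 1) := fun N hN =>
      mem_range.2 (Nat.lt_succ_of_le (Nat.log_mono_right
        (Nat.le_floor (hA N (mem_filter.1 hN).1).2.1)))
    rw [← sum_fiberwise_of_maps_to hm f, ← sum_fiberwise_of_maps_to hm a, ← sum_add_distrib]
    refine sum_le_sum fun L hL => ?_
    have hLΛ : (L : ℝ) ≤ 2 * Real.log x :=
      le_trans (by exact_mod_cast Nat.lt_succ_iff.1 (mem_range.1 hL)) hΛ2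
    by_cases h0 : L₀ ≤ L
    · refine (hc L h0 G a g hG ha hg hgE _ fun N hN => ?_).trans ?_
      · obtain ⟨b1, rfl⟩ := mem_filter.1 hN
        obtain ⟨a1, _, a3⟩ := hA N (mem_filter.1 b1).1
        exact ⟨a1, Nat.pow_log_le_self 2 (by have := a1.pos; omega),
          Nat.lt_pow_succ_log_self (by norm_num) N, a3⟩
      · have b1 := mul_le_mul_of_nonneg_right (hρ L hLΛ) (show 0 ≤ 1 + G by linarith)
        refine add_le_add le_rfl ?_
        calc _ ≤ K * 2 ^ L * (2 * Q) := by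
              refine mul_le_mul_of_nonneg_left ?_ (by positivity)
              rw [hQ]; linarith
          _ = _ := by ring
    · rw [sum_eq_zero (f := f)]
      · exact add_nonneg (sum_nonneg fun _ _ => ha _) (by positivity)
      · intro N hN
        obtain ⟨b1, rfl⟩ := mem_filter.1 hN
        exact absurd (Nat.le_log_of_pow_le (by norm_num) (not_lt.1 (mem_filter.1 b1).2)) h0
  rw [← mul_sum] at s2
  have s3 : ∑ L ∈ range (Λ + 1), (2 : ℝ) ^ L ≤ 2 * x := by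
    have := geom_sum_mul (2 : ℝ) (Λ + 1)
    rw [pow_succ] at this
    linarith
  have s4 := mul_le_mul_of_nonneg_left s3 (show 0 ≤ 2 * K * Q by positivity)
  have s5 := sum_le_sum_of_subset_of_nonneg (filter_subset (fun N => ¬ N < 2 ^ L₀) A)
    (f := a) fun _ _ _ => ha _
  linarith

/-- The size of the error term. -/
noncomputable abbrev RR (x : ℝ) : ℝ := √(Real.log x * Real.log (Real.log x))

lemma RR_facts {x : ℝ} (hx : 16 ≤ x) : 1 ≤ RR x ∧ √(Real.log x) ≤ RR x := by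
  obtain ⟨h1, h2⟩ := log_facts hx
  exact ⟨Real.one_le_sqrt.2 (by nlinarith), Real.sqrt_le_sqrt (by nlinarith)⟩

lemma RR_scale (x : ℝ) (hx : 16 ≤ x) : 1 ≤ RR x ∧
    ∀ L : ℕ, L ≤ 2 * Real.log x → √(L * Real.log L) ≤ 2 * RR x := by
  obtain ⟨h1, h2⟩ := log_facts hx
  refine ⟨(RR_facts hx).1, fun L hL => ?_⟩
  rw [show (2 : ℝ) = √4 by rw [show (4 : ℝ) = 2 ^ 2 by norm_num, Real.sqrt_sq (by norm_num)],
    ← Real.sqrt_mul (by norm_num)]
  refine Real.sqrt_le_sqrt ?_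
  rcases Nat.eq_zero_or_pos L with rfl | hp
  · simp only [Nat.cast_zero, zero_mul]; nlinarith
  · have c1 := Real.log_le_log (by exact_mod_cast hp) hL
    rw [Real.log_mul (by norm_num) (by linarith)] at c1
    have c2 := Real.log_two_lt_d9
    calc (L : ℝ) * Real.log L ≤ (2 * Real.log x) * (2 * Real.log (Real.log x)) :=
          mul_le_mul hL (by linarith) (Real.log_natCast_nonneg L) (by linarith)
      _ = _ := by ring

end Pool.Agent.P.MP_2b866c_nt.Poly
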