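import Pool.Agent.P.MP_2b866c_nt.Poly.Pass

/-!
Equidistribution of the parity words; the slow points and the unbalanced points are sparse.
-/

set_option autoImplicit false

open Finset

namespace Pool.Agent.P.MP_2b866c_nt.Poly

lemma sum_range_two_mul (M : ℕ) (F : ℕ → ℝ) :
    ∑ m ∈ range (2 * M), F m = ∑ m ∈ range M, F (2 * m) + ∑ m ∈ range M, F (2 * m + 1) := by
  induction M with
  | zero => simp
  | succ M ih =>
    rw [show 2 * (M + 1) = 2 * M + 1 + 1 by ring, sum_range_succ, sum_range_succ, ih,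
      sum_range_succ, sum_range_succ]
    ring

lemma J_succ_even (t : ℕ) {N : ℕ} (h : N % 2 = 0) : J (t + 1) N = J t (N / 2) := by
  rw [J_add, Function.iterate_one, T, if_pos h]
  simp [J, bits, h]

lemma J_succ_odd (t : ℕ) {N : ℕ} (h : N % 2 = 1) : J (t + 1) N = J t ((3 * N + 1) / 2) + 1 := by
  rw [J_add, Function.iterate_one, T, if_neg (by omega)]
  simp [J, bits, h]

lemma sum_J (t : ℕ) : ∀ (r c d : ℕ) (f : ℕ → ℝ), c % 2 = 1 →
    ∑ m ∈ range (2 ^ (t + r)), f (J t (c * m + d)) = 2 ^ (t + r) * Bn t f := by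
  induction t with
  | zero => intro r c d f _; simp [J, bits]
  | succ t ih =>
    intro r c d f hc
    have ev : ∀ d, d % 2 = 0 → ∑ m ∈ range (2 ^ (t + r)), f (J (t + 1) (c * (2 * m) + d))
        = 2 ^ (t + r) * Bn t f := by
      intro d hd
      rw [← ih r c (d / 2) f hc]
      refine sum_congr rfl fun m _ => ?_
      have e : c * (2 * m) = 2 * (c * m) := by ring
      rw [J_succ_even t (by omega)]
      congr 2; omega
    have od : ∀ d, d % 2 = 1 → ∑ m ∈ range (2 ^ (t + r)), f (J (t + 1) (c * (2 * m) + d))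
        = 2 ^ (t + r) * Bn t (fun e => f (e + 1)) := by
      intro d hd
      rw [← ih r (3 * c) ((3 * d + 1) / 2) (fun e => f (e + 1)) (by omega)]
      refine sum_congr rfl fun m _ => ?_
      have e : c * (2 * m) = 2 * (c * m) := by ring
      have e' : 3 * c * m = 3 * (c * m) := by ring
      rw [J_succ_odd t (by omega)]
      congr 3; omega
    rw [show t + 1 + r = t + r + 1 by ring, pow_succ, mul_comm (2 ^ (t + r)) 2, sum_range_two_mul,
      Bn_succ, pow_succ]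
    have e : ∀ m, c * (2 * m + 1) + d = c * (2 * m) + (c + d) := fun m => by ring
    simp only [e]
    rcases Nat.mod_two_eq_zero_or_one d with hd | hd
    · rw [ev d hd, od (c + d) (by omega)]; ring
    · rw [od d hd, ev (c + d) (by omega)]; ring

lemma sum_J_Ico {t j : ℕ} (ht : t ≤ j) (f : ℕ → ℝ) :
    ∑ n ∈ Ico (2 ^ j) (2 ^ (j + 1)), f (J t n) = 2 ^ j * Bn t f := by
  obtain ⟨r, rfl⟩ := Nat.exists_eq_add_of_le ht
  rw [← sum_J t r 1 (2 ^ (t + r)) f (by norm_num), sum_Ico_eq_sum_range,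
    show 2 ^ (t + r + 1) - 2 ^ (t + r) = 2 ^ (t + r) by rw [pow_succ]; omega]
  refine sum_congr rfl fun m _ => ?_
  rw [one_mul, add_comm]

lemma Bn_pow (t : ℕ) (u : ℝ) : Bn t (fun e => u ^ e) = ((1 + u) / 2) ^ t := by
  induction t with
  | zero => simp
  | succ t ih =>
    rw [Bn_succ]
    have : Bn t (fun e => u ^ (e + 1)) = u * Bn t (fun e => u ^ e) := by
      rw [← Bn_mul_left]; exact Bn_congr fun e _ => by ring
    rw [this, ih]; ring

lemma log_three_lt : Real.log 3 < 1.0987 := by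
  have h1 := Real.log_two_lt_d9
  have h2 : Real.log 3 = 2 * Real.log 2 - Real.log (4 / 3) := by
    rw [Real.log_div (by norm_num) (by norm_num), show (4 : ℝ) = 2 ^ 2 by norm_num, Real.log_pow]
    push_cast; ring
  have h3 : (0.2876 : ℝ) < Real.log (4 / 3) := by
    rw [Real.lt_log_iff_exp_lt (by norm_num)]
    have := Real.exp_bound' (x := 0.2876) (by norm_num) (by norm_num) (n := 5) (by norm_num)
    refine this.trans_lt ?_
    simp [sum_range_succ, Nat.factorial]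
    norm_num
  linarith

lemma one_lt_log_three : 1 < Real.log 3 := by
  rw [Real.lt_log_iff_exp_lt (by norm_num)]
  linarith [Real.exp_one_lt_d9]

/-- A long stay at a high level forces many odd steps. -/
lemma stay {j j' n : ℕ} (hn : n < 2 ^ (j + 1)) (hj : j ≤ 2 ^ j')
    (h : ∀ i ≤ j, 2 ^ j' ≤ T^[i] n) :
    j' * Real.log 2 ≤ J j n * Real.log 3 + Real.log 2 + 1 := by
  have h0 : 1 ≤ 2 ^ j' := Nat.one_le_two_pow
  have h1 := lg_le j h0 fun i hi => h i hi.le
  have h2 : (j : ℝ) / ((2 ^ j' : ℕ) : ℝ) ≤ 1 := by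
    rw [div_le_one (by exact_mod_cast h0)]; exact_mod_cast hj
  have hn0 : (0 : ℝ) < n := by exact_mod_cast h0.trans (h 0 (Nat.zero_le _))
  have h3 : Real.log n ≤ (j + 1) * Real.log 2 := by
    have : Real.log n ≤ Real.log (2 ^ (j + 1)) :=
      Real.log_le_log hn0 (by exact_mod_cast hn.le)
    rw [Real.log_pow] at this
    push_cast at this; exact this
  have h4 : j' * Real.log 2 ≤ Real.log (T^[j] n : ℕ) := by
    rw [← Real.log_pow]
    exact Real.log_le_log (by positivity) (by exact_mod_cast h j le_rfl)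
  unfold lg at h1
  linarith

lemma E_ones {j n : ℕ} (h : n ∈ E j) : 147 * j ≤ 233 * (J j n + 2) := by
  simp only [E, mem_filter, mem_Ico] at h
  have h1 := stay h.1.2 Nat.lt_two_pow_self.le h.2
  have h2 : 147 * Real.log 3 ≤ 233 * Real.log 2 := by
    have : Real.log (3 ^ 147) ≤ Real.log (2 ^ 233) := Real.log_le_log (by positivity) (by norm_num)
    rw [Real.log_pow, Real.log_pow] at this
    exact_mod_cast this
  have h3 := one_lt_log_three
  have h4 := Real.log_two_lt_d9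
  have h5 : (147 * j : ℝ) * Real.log 3 ≤ (233 * (J j n + 2)) * Real.log 3 := by
    have : (0 : ℝ) ≤ j := Nat.cast_nonneg _
    nlinarith
  have h6 := le_of_mul_le_mul_right h5 (by linarith)
  exact_mod_cast h6

/-- Growth rate of the number of slow points. -/
noncomputable def qq : ℝ := 2.71 / 1.4028

lemma qq_pos : 0 < qq := by unfold qq; norm_num

lemma card_E (j : ℕ) : ((E j).card : ℝ) ≤ 3 * qq ^ j := by
  set u : ℝ := 1.71 with hu
  set r : ℝ := 1.4028 with hr
  have hru : r ^ 233 ≤ u ^ 147 := by rw [hu, hr]; norm_num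
  have hu1 : 1 ≤ u := by rw [hu]; norm_num
  have hr0 : 0 < r := by rw [hr]; norm_num
  have h1 : ((E j).card : ℝ) ≤ ∑ n ∈ E j, u ^ 2 / r ^ j * u ^ J j n := by
    rw [card_eq_sum_ones]
    push_cast
    refine sum_le_sum fun n hn => ?_
    rw [div_mul_eq_mul_div, le_div_iff₀ (by positivity), one_mul, ← pow_add]
    refine le_of_pow_le_pow_left₀ (n := 233) (by norm_num) (by positivity) ?_
    calc (r ^ j) ^ 233 = (r ^ 233) ^ j := by rw [← pow_mul, ← pow_mul, mul_comm]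
      _ ≤ (u ^ 147) ^ j := by gcongr
      _ = u ^ (147 * j) := by rw [← pow_mul]
      _ ≤ u ^ ((2 + J j n) * 233) := pow_le_pow_right₀ hu1 (by have := E_ones hn; omega)
      _ = _ := by rw [pow_mul]
  have h2 : ∑ n ∈ E j, u ^ 2 / r ^ j * u ^ J j n
      ≤ ∑ n ∈ Ico (2 ^ j) (2 ^ (j + 1)), u ^ 2 / r ^ j * u ^ J j n :=
    sum_le_sum_of_subset_of_nonneg (filter_subset _ _) fun _ _ _ => by positivity
  refine h1.trans (h2.trans ?_)
  rw [← mul_sum, sum_J_Ico le_rfl (fun e => u ^ e), Bn_pow, ← mul_pow]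
  have e : qq ^ j = (2 * ((1 + u) / 2)) ^ j / r ^ j := by
    rw [← div_pow, qq, hu, hr]; norm_num
  rw [e, div_mul_eq_mul_div, mul_div_assoc]
  gcongr
  rw [hu]; norm_num

open Classical in
/-- Unbalanced points at scale `j`. -/
noncomputable def F (κ : ℝ) (j : ℕ) : Finset ℕ :=
  (Ico (2 ^ j) (2 ^ (j + 1))).filter fun n => ∃ t ≤ j, κ * √j < |2 * (J t n : ℝ) - t|

lemma card_F {κ : ℝ} (hκ : 0 ≤ κ) {j : ℕ} (hj : 1 ≤ j) :
    ((F κ j).card : ℝ) ≤ (j + 1) * (2 ^ j * (2 * Real.exp (-(κ ^ 2 / 2)))) := by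
  classical
  have hj0 : (0 : ℝ) < j := by exact_mod_cast hj
  have h1 : ((F κ j).card : ℝ) ≤ ∑ n ∈ Ico (2 ^ j) (2 ^ (j + 1)), ∑ t ∈ range (j + 1),
      (if κ * √j < |2 * (J t n : ℝ) - t| then (1 : ℝ) else 0) := by
    rw [F, card_filter]
    push_cast
    refine sum_le_sum fun n _ => ?_
    split_ifs with h
    · obtain ⟨t, ht, h⟩ := h
      refine le_trans ?_ (single_le_sum (f := fun t : ℕ =>
        if κ * √j < |2 * (J t n : ℝ) - t| then (1 : ℝ) else 0) (fun i _ => by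
          split_ifs <;> norm_num) (mem_range.2 (Nat.lt_succ_of_le ht)))
      simp only [h, if_true, le_refl]
    · exact sum_nonneg fun i _ => by split_ifs <;> norm_num
  refine h1.trans ?_
  rw [sum_comm]
  refine (sum_le_card_nsmul _ _ (2 ^ j * (2 * Real.exp (-(κ ^ 2 / 2)))) fun t ht => ?_).trans ?_
  · have ht' : t ≤ j := Nat.lt_succ_iff.1 (mem_range.1 ht)
    have htj : (t : ℝ) ≤ j := by exact_mod_cast ht'
    rw [sum_J_Ico ht' (fun e => if κ * √j < |2 * (e : ℝ) - t| then (1 : ℝ) else 0)]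
    gcongr
    have hD : 0 ≤ κ * √j / 2 := by positivity
    have e : 2 * (κ * √j / 2) ^ 2 / j = κ ^ 2 / 2 := by
      rw [div_pow, mul_pow, Real.sq_sqrt hj0.le]; field_simp
    have a1 := hoeff_up t j _ htj hj0 hD (fun e => (t : ℝ) / 2 + κ * √j / 2 ≤ e) fun _ h => h
    have a2 := hoeff_down t j _ htj hj0 hD (fun e => (e : ℝ) ≤ t / 2 - κ * √j / 2) fun _ h => h
    rw [e] at a1 a2
    refine le_trans (Bn_mono fun e _ => ?_)
      ((Bn_add t _ _).le.trans ((add_le_add a1 a2).trans (two_mul _).ge))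
    split_ifs with b1 b2 b3 b4 <;> try norm_num
    rcases lt_abs.1 b1 with b | b
    · exact b2 (by linarith)
    · exact b4 (by linarith)
  · rw [card_range, nsmul_eq_mul]; push_cast; rfl

lemma dev_le {κ : ℝ} {j n t : ℕ} (h1 : 2 ^ j ≤ n) (h2 : n < 2 ^ (j + 1)) (h : n ∉ F κ j)
    (ht : t ≤ j) : |2 * (J t n : ℝ) - t| ≤ κ * √j := by
  classical
  by_contra hc
  exact h (mem_filter.2 ⟨mem_Ico.2 ⟨h1, h2⟩, t, ht, not_le.1 hc⟩)

/-- A balanced point descends a tenth of its scale within `j` steps. -/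
lemma fast {κ : ℝ} (hκ : 0 ≤ κ) {j j' n : ℕ} (hj : 30 ≤ j) (hκj : 10000 * κ ^ 2 ≤ j)
    (h1 : 2 ^ j ≤ n) (h2 : n < 2 ^ (j + 1)) (h : n ∉ F κ j) (hj' : 9 * j ≤ 10 * j') :
    ¬ ∀ i ≤ j, 2 ^ (j' + 1) ≤ T^[i] n := by
  intro hs
  have a0 : j ≤ 2 ^ (j' + 1) := by
    have : j' < 2 ^ j' := Nat.lt_two_pow_self
    rw [pow_succ]; omega
  have a1 := stay h2 a0 hs
  have a2 := (abs_le.1 (dev_le h1 h2 h le_rfl)).2
  have hj0 : (30 : ℝ) ≤ j := by exact_mod_cast hj
  have a3 : κ * √j ≤ j / 100 := by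
    have b1 : 100 * κ ≤ √j := Real.le_sqrt_of_sq_le (by nlinarith)
    have b2 : √j * √j = j := Real.mul_self_sqrt (by linarith)
    nlinarith [Real.sqrt_nonneg (j : ℝ)]
  have a4 : (9 * j : ℝ) ≤ 10 * j' := by exact_mod_cast hj'
  have l1 := Real.log_two_gt_d9
  have l2 := log_three_lt
  have l3 := one_lt_log_three
  have a5 : (J j n : ℝ) * Real.log 3 ≤ (0.505 * j) * 1.0987 := by
    gcongr; linarith
  have a6 : (0.9 * j) * 0.693 ≤ (j' : ℝ) * Real.log 2 := by
    gcongr <;> linarith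
  push_cast at a1
  linarith

lemma tau_le_of_bal {κ : ℝ} (hκ : 0 ≤ κ) {j j' n : ℕ} (hj : 30 ≤ j) (hκj : 10000 * κ ^ 2 ≤ j)
    (h1 : 2 ^ j ≤ n) (h2 : n < 2 ^ (j + 1)) (h : n ∉ F κ j) (hj' : 9 * j ≤ 10 * j') :
    tau j' n ≤ j := by
  have := fast hκ hj hκj h1 h2 h hj'
  simp only [not_forall, not_le] at this
  obtain ⟨i, hi, h3⟩ := this
  exact (tau_le h3).trans hi

lemma notMem_E_of_bal {κ : ℝ} (hκ : 0 ≤ κ) {j n : ℕ} (hj : 30 ≤ j) (hκj : 10000 * κ ^ 2 ≤ j)
    (h : n ∉ F κ j) : n ∉ E j := by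
  intro hE
  simp only [E, mem_filter, mem_Ico] at hE
  obtain ⟨i, rfl⟩ : ∃ i, j = i + 1 := ⟨j - 1, by omega⟩
  exact fast hκ hj hκj hE.1.1 hE.1.2 h (j' := i) (by omega) hE.2

/-- Total deviation along balanced first passage points. -/
lemma dev_total {κ : ℝ} (hκ : 0 ≤ κ) {js : ℕ} (hjs : 30 ≤ js) (hκj : 10000 * κ ^ 2 ≤ js)
    (L : ℕ) : ∀ N, Reach N → 2 ^ L ≤ N → N < 2 ^ (L + 1) → js ≤ L →
      (∀ i, js ≤ i → i ≤ L → pt i N ∉ F κ i) →
      |2 * (kk js N : ℝ) - tau js N| ≤ 30 * (κ * √L) := by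
  induction L using Nat.strong_induction_on with
  | _ L ih =>
  intro N hN h1 h2 hL hb
  have hκL : 10000 * κ ^ 2 ≤ (L : ℝ) := hκj.trans (by exact_mod_cast hL)
  have hNF : N ∉ F κ L := by have := hb L hL le_rfl; rwa [pt_self h2] at this
  have hp : 0 ≤ κ * √L := by positivity
  by_cases hc : 9 * L ≤ 10 * js
  · have := dev_le h1 h2 hNF (tau_le_of_bal hκ (by omega) hκL h1 h2 hNF hc)
    unfold kk
    linarith
  · set L' := L - L / 10 with hL'
    have a1 := dev_le h1 h2 hNF (tau_le_of_bal hκ (j' := L') (by omega) hκL h1 h2 hNF (by omega))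
    have a2 := ih L' (by omega) (pt L' N) (hN.pt _)
      (le_pt ((Nat.pow_le_pow_right (by norm_num) (by omega)).trans h1)) (pt_lt hN _) (by omega)
      fun i i1 i2 => by rw [pt_pt hN i2]; exact hb i i1 (by omega)
    have a3 : 30 * √L' ≤ 29 * √L := by
      have b1 : 100 * L' ≤ 93 * L := by omega
      have b2 : (100 * L' : ℝ) ≤ 93 * L := by exact_mod_cast b1
      refine le_of_pow_le_pow_left₀ (n := 2) (by norm_num) (by positivity) ?_
      rw [mul_pow, mul_pow, Real.sq_sqrt (Nat.cast_nonneg _), Real.sq_sqrt (Nat.cast_nonneg _)]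
      have : (0 : ℝ) ≤ L := Nat.cast_nonneg _
      linarith
    have a4 := mul_le_mul_of_nonneg_left a3 hκ
    rw [kk_add hN (show js ≤ L' by omega), tau_add hN (show js ≤ L' by omega)]
    push_cast
    unfold kk at a2 ⊢
    rw [abs_le] at a1 a2 ⊢
    constructor <;> nlinarith [a1.1, a1.2, a2.1, a2.2]

end Pool.Agent.P.MP_2b866c_nt.Poly
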